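import Pool.Agent.TLU.Ker

set_option autoImplicit false

/-!
# The last strand around the others

`FF p`: the braid `s_p ... s_0 s_0 ... s_p`. It commutes with the first `p` generators, and acts by the scalar `A^(-6)` on
the span of a vector with cups at `(0,1), (2,3), ..., (p,p+1)`, `p` even.
-/

namespace Pool.Agent.TLU

/-- `s_0 ... s_(p-1)` -/
def UU : ℕ → FreeGroup ℕ
  | 0 => 1
  | p + 1 => UU p * FreeGroup.of p

/-- `s_(p-1) ... s_0` -/
def DD : ℕ → FreeGroup ℕ
  | 0 => 1
  | p + 1 => FreeGroup.of p * DD p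

/-- the last of `p + 1` strands around the others: `s_(p-1) ... s_0 s_0 ... s_(p-1)` -/
def FF (p : ℕ) : FreeGroup ℕ := DD p * UU p

theorem FF_zero : FF 0 = 1 := by unfold FF; rw [DD, UU, mul_one]

theorem FF_succ (p : ℕ) : FF (p + 1) = FreeGroup.of p * FF p * FreeGroup.of p := by
  unfold FF; rw [DD, UU]; group

theorem UU_mem (p : ℕ) : UU p ∈ C p := by
  induction p with
  | zero => exact one_mem _
  | succ p ih => exact mul_mem (C_mono (Nat.le_succ p) ih) (of_mem (Nat.lt_succ_self p))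

theorem DD_mem (p : ℕ) : DD p ∈ C p := by
  induction p with
  | zero => exact one_mem _
  | succ p ih => exact mul_mem (of_mem (Nat.lt_succ_self p)) (C_mono (Nat.le_succ p) ih)

theorem FF_mem (p : ℕ) : FF p ∈ C p := mul_mem (DD_mem p) (UU_mem p)

variable {T : Type} [Ring T] [Algebra ℂ T]

/-- an element of `T` that commutes with `e j` commutes with `s j` and conversely -/
theorem Rep.comm_s {A τ : ℂ} {N : ℕ} {e : ℕ → T} {s : ℕ → Tˣ} (h : Rep A τ N e s) {j : ℕ}
    (hj : j < N) {x : T} : x * e j = e j * x ↔ x * (s j : T) = (s j : T) * x := by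
  have hA := h.ne
  rw [h.val j hj, mul_add, add_mul, mul_smul_comm, smul_mul_assoc, Algebra.commutes A x]
  constructor
  · intro h1; rw [h1]
  · intro h1
    have h2 := add_left_cancel h1
    exact smul_right_injective T (inv_ne_zero hA) h2

/-- the braid relation -/
theorem Rep.braid {A τ : ℂ} {N : ℕ} {e : ℕ → T} {s : ℕ → Tˣ} (h : Rep A τ N e s) {i : ℕ}
    (hi : i + 1 < N) : s i * s (i + 1) * s i = s (i + 1) * s i * s (i + 1) := by
  have hA := h.ne
  apply Units.ext
  rw [Units.val_mul, Units.val_mul, Units.val_mul, Units.val_mul, h.val i (by omega),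
    h.val (i + 1) hi]
  have u := h.tl.up i hi
  have d := h.tl.down i hi
  have q1 := h.tl.sq i (by omega)
  have q2 := h.tl.sq (i + 1) hi
  have e1 : (algebraMap ℂ T A + A⁻¹ • e i) * (algebraMap ℂ T A + A⁻¹ • e (i + 1)) *
      (algebraMap ℂ T A + A⁻¹ • e i) = (A ^ 3) • (1 : T) + (2 * A) • e i + A • e (i + 1) +
      A⁻¹ • (e i * e i) + A⁻¹ • (e i * e (i + 1)) + A⁻¹ • (e (i + 1) * e i) +
      (A⁻¹ ^ 3) • (e i * e (i + 1) * e i) := by
    simp only [Algebra.algebraMap_eq_smul_one, add_mul, mul_add, smul_mul_assoc, mul_smul_comm,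
      one_mul, mul_one]
    match_scalars <;> field_simp <;> ring
  have e2 : (algebraMap ℂ T A + A⁻¹ • e (i + 1)) * (algebraMap ℂ T A + A⁻¹ • e i) *
      (algebraMap ℂ T A + A⁻¹ • e (i + 1)) = (A ^ 3) • (1 : T) + (2 * A) • e (i + 1) + A • e i +
      A⁻¹ • (e (i + 1) * e (i + 1)) + A⁻¹ • (e i * e (i + 1)) + A⁻¹ • (e (i + 1) * e i) +
      (A⁻¹ ^ 3) • (e (i + 1) * e i * e (i + 1)) := by
    simp only [Algebra.algebraMap_eq_smul_one, add_mul, mul_add, smul_mul_assoc, mul_smul_comm,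
      one_mul, mul_one]
    match_scalars <;> field_simp <;> ring
  rw [e1, e2, u, d, q1, q2, h.par]
  match_scalars <;> field_simp <;> ring

theorem Rep.commute {A τ : ℂ} {N : ℕ} {e : ℕ → T} {s : ℕ → Tˣ} (h : Rep A τ N e s) {i j : ℕ}
    (hij : i + 1 < j) (hj : j < N) : s i * s j = s j * s i := by
  apply Units.ext
  rw [Units.val_mul, Units.val_mul]
  rw [← h.comm_s hj, eq_comm, ← h.comm_s (by omega : i < N)]
  exact (h.tl.comm i j hij hj).symm

/-- far letters commute with words -/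
theorem far_comm {H : Type*} [Group H] {f : FreeGroup ℕ →* H} {m : ℕ} {y : H}
    (h : ∀ i, i < m → f (FreeGroup.of i) * y = y * f (FreeGroup.of i)) {g : FreeGroup ℕ}
    (hg : g ∈ C m) : f g * y = y * f g := by
  have h1 : Commute (f g) y := by
    have h2 : (C m).map f ≤ Subgroup.centralizer {y} := by
      unfold C
      rw [MonoidHom.map_closure, Subgroup.closure_le]
      rintro _ ⟨_, ⟨i, hi, rfl⟩, rfl⟩
      rw [SetLike.mem_coe, Subgroup.mem_centralizer_singleton_iff]
      exact h i hi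
    have h3 := h2 ⟨g, hg, rfl⟩
    rw [Subgroup.mem_centralizer_singleton_iff] at h3
    exact h3
  exact h1

theorem Rep.FF_comm {A τ : ℂ} {N : ℕ} {e : ℕ → T} {s : ℕ → Tˣ} (h : Rep A τ N e s) :
    ∀ p, p ≤ N → ∀ i, i + 1 < p →
      FreeGroup.lift s (FF p) * s i = s i * FreeGroup.lift s (FF p) := by
  intro p
  induction p with
  | zero => intro _ i hi; omega
  | succ p ih =>
    intro hN i hi
    have ih' := ih (by omega)
    rw [FF_succ, map_mul, map_mul, FreeGroup.lift_apply_of]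
    set X := FreeGroup.lift s (FF p) with hX
    rcases Nat.lt_or_ge (i + 1) p with h1 | h1
    · -- `i + 1 < p`
      have c1 := h.commute h1 (by omega)
      have c2 := ih' i h1
      calc s p * X * s p * s i = s p * X * (s p * s i) := by group
        _ = s p * (X * s i) * s p := by rw [← c1]; group
        _ = s p * s i * X * s p := by rw [c2]; group
        _ = s i * (s p * X * s p) := by rw [← c1]; group
    · -- `i + 1 = p`
      have hp : p = i + 1 := by omega
      subst hp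
      have hX2 : X = s i * FreeGroup.lift s (FF i) * s i := by
        rw [hX, FF_succ, map_mul, map_mul, FreeGroup.lift_apply_of]
      set Y := FreeGroup.lift s (FF i) with hY
      have c1 : Y * s (i + 1) = s (i + 1) * Y := by
        rw [hY]
        refine far_comm (fun j hj => ?_) (FF_mem i)
        rw [FreeGroup.lift_apply_of]
        exact h.commute (by omega) (by omega)
      have b := h.braid (i := i) (by omega)
      rw [hX2]
      calc s (i + 1) * (s i * Y * s i) * s (i + 1) * s i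
          = s (i + 1) * s i * Y * (s i * s (i + 1) * s i) := by group
        _ = s (i + 1) * s i * (Y * s (i + 1)) * s i * s (i + 1) := by rw [b]; group
        _ = (s (i + 1) * s i * s (i + 1)) * Y * s i * s (i + 1) := by rw [c1]; group
        _ = s i * (s (i + 1) * (s i * Y * s i) * s (i + 1)) := by rw [← b]; group

/-- `FF (p+1)` commutes with `S e p` -/
theorem Rep.FF_S {A τ : ℂ} {N : ℕ} {e : ℕ → T} {s : ℕ → Tˣ} (h : Rep A τ N e s) {p : ℕ}
    (hp : p + 1 ≤ N) {x : T} (hx : x ∈ S e p) : x * vl s (FF (p + 1)) = vl s (FF (p + 1)) * x := by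
  refine comm_far (fun i hi => ?_) hx
  rw [eq_comm, h.comm_s (by omega)]
  unfold vl
  rw [← Units.val_mul, ← Units.val_mul, h.FF_comm (p + 1) hp i (by omega)]

/-- the commutator with an arbitrary word -/
theorem Rep.conj_mem {A τ : ℂ} {N : ℕ} {e : ℕ → T} {s : ℕ → Tˣ} (h : Rep A τ N e s) {k : ℕ}
    {F Y : FreeGroup ℕ} (hF : F ∈ C N) (hY : Y ∈ C N) (h1 : vl s Y - 1 ∈ J e k N) :
    vl s (F * Y * F⁻¹ * Y⁻¹) - 1 ∈ J e k N := by
  have h2 := J_right _ (h.vl_mem le_rfl (inv_mem hF)) (J_left _ (h.vl_mem le_rfl hF) h1)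
  have h3 := J_right _ (h.vl_mem le_rfl (inv_mem hY)) (sub_mem h2 h1)
  have h4 : (vl s F * (vl s Y - 1) * vl s F⁻¹ - (vl s Y - 1)) * vl s Y⁻¹ =
      vl s (F * Y * F⁻¹ * Y⁻¹) - 1 := by
    have h5 : vl s F * (vl s Y - 1) * vl s F⁻¹ - (vl s Y - 1) =
        vl s F * vl s Y * vl s F⁻¹ - vl s Y := by
      rw [mul_sub, sub_mul, mul_one, vl_mul_inv]
      abel
    rw [h5, sub_mul, vl_mul_inv, vl_mul, vl_mul, vl_mul]
  rw [h4] at h3
  exact h3

section module
variable {M : Type} [AddCommGroup M] [Module ℂ M]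

/-- `v` has a cup at `(i, i+1)` -/
structure Cup (τ : ℂ) (N : ℕ) (e : ℕ → Module.End ℂ M) (i : ℕ) (v : M) : Prop where
  loop : e i v = τ • v
  up : i + 1 < N → e i (e (i + 1) v) = v
  down : ∀ j, j + 1 = i → e i (e j v) = v

/-- `e_1 e_3 ... e_(2m-1)` -/
def XX (e : ℕ → Module.End ℂ M) : ℕ → Module.End ℂ M
  | 0 => 1
  | m + 1 => e (2 * m + 1) * XX e m

theorem Rep.slide_up {A τ : ℂ} {N : ℕ} {e : ℕ → Module.End ℂ M} {s : ℕ → (Module.End ℂ M)ˣ}
    (h : Rep A τ N e s) {i : ℕ} (hi : i + 1 < N) {v : M} (hv : Cup τ N e i v) :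
    vl s (FreeGroup.of i) (vl s (FreeGroup.of (i + 1)) v) = e (i + 1) v := by
  have hA := h.ne
  rw [vl_of, vl_of, h.val i (by omega), h.val (i + 1) hi]
  simp only [Algebra.algebraMap_eq_smul_one, LinearMap.add_apply, LinearMap.smul_apply,
    Module.End.one_apply, map_add, map_smul, hv.loop, hv.up hi, h.par]
  match_scalars <;> field_simp <;> ring

theorem Rep.slide_down {A τ : ℂ} {N : ℕ} {e : ℕ → Module.End ℂ M} {s : ℕ → (Module.End ℂ M)ˣ}
    (h : Rep A τ N e s) {i : ℕ} (hi : i + 1 < N) {v : M} (hv : Cup τ N e i v) :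
    vl s (FreeGroup.of (i + 1)) (vl s (FreeGroup.of i) (e (i + 1) v)) = v := by
  have hA := h.ne
  have h1 : e (i + 1) (e (i + 1) v) = τ • e (i + 1) v := by
    have := congrArg (fun f : Module.End ℂ M => f v) (h.tl.sq (i + 1) hi)
    exact this
  rw [vl_of, vl_of, h.val i (by omega), h.val (i + 1) hi]
  have h2 : e (i + 1) (e i (e (i + 1) v)) = e (i + 1) v := by rw [hv.up hi]
  simp only [Algebra.algebraMap_eq_smul_one, LinearMap.add_apply, LinearMap.smul_apply,
    Module.End.one_apply, map_add, map_smul, h1, h2, hv.up hi, h.par]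
  match_scalars <;> field_simp <;> ring

theorem Rep.twist {A τ : ℂ} {N : ℕ} {e : ℕ → Module.End ℂ M} {s : ℕ → (Module.End ℂ M)ˣ}
    (h : Rep A τ N e s) {i : ℕ} (hi : i < N) {v : M} (hv : Cup τ N e i v) :
    vl s (FreeGroup.of i) v = (-A⁻¹ ^ 3) • v := by
  have hA := h.ne
  rw [vl_of, h.val i hi]
  simp only [Algebra.algebraMap_eq_smul_one, LinearMap.add_apply, LinearMap.smul_apply,
    Module.End.one_apply, hv.loop, h.par]
  match_scalars
  field_simp
  ring

theorem vl_mul_apply (s : ℕ → (Module.End ℂ M)ˣ) (g k : FreeGroup ℕ) (v : M) :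
    vl s (g * k) v = vl s g (vl s k v) := by
  rw [vl_mul]; rfl

theorem Rep.UU_eq {A τ : ℂ} {N : ℕ} {e : ℕ → Module.End ℂ M} {s : ℕ → (Module.End ℂ M)ˣ}
    (h : Rep A τ N e s) {v : M} : ∀ m, 2 * m ≤ N → (∀ t, t < m → Cup τ N e (2 * t) v) →
      vl s (UU (2 * m)) v = XX e m v := by
  intro m
  induction m with
  | zero => intro _ _; rw [Nat.mul_zero, UU, vl_one, XX]
  | succ m ih =>
    intro hN hv
    have h1 : UU (2 * (m + 1)) = UU (2 * m) * (FreeGroup.of (2 * m) * FreeGroup.of (2 * m + 1)) := by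
      rw [show 2 * (m + 1) = 2 * m + 1 + 1 from by ring, UU, UU, mul_assoc]
    rw [h1, vl_mul_apply, vl_mul_apply, h.slide_up (by omega) (hv m (Nat.lt_succ_self m))]
    have h2 := h.tl.comm_S (p := 2 * m) (q := 2 * m + 1) (by omega) (by omega)
      (h.vl_mem (by omega) (UU_mem (2 * m)))
    have h3 := congrArg (fun f : Module.End ℂ M => f v) h2
    have h4 : vl s (UU (2 * m)) (e (2 * m + 1) v) = e (2 * m + 1) (vl s (UU (2 * m)) v) := h3
    rw [h4, ih (by omega) fun t ht => hv t (by omega)]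
    rfl

theorem Rep.DD_eq {A τ : ℂ} {N : ℕ} {e : ℕ → Module.End ℂ M} {s : ℕ → (Module.End ℂ M)ˣ}
    (h : Rep A τ N e s) {v : M} : ∀ m, 2 * m ≤ N → (∀ t, t < m → Cup τ N e (2 * t) v) →
      vl s (DD (2 * m)) (XX e m v) = v := by
  intro m
  induction m with
  | zero => intro _ _; rw [Nat.mul_zero, DD, vl_one, XX]; rfl
  | succ m ih =>
    intro hN hv
    have h1 : DD (2 * (m + 1)) = FreeGroup.of (2 * m + 1) * (FreeGroup.of (2 * m) * DD (2 * m)) := by
      rw [show 2 * (m + 1) = 2 * m + 1 + 1 from by ring, DD, DD]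
    have h2 := h.tl.comm_S (p := 2 * m) (q := 2 * m + 1) (by omega) (by omega)
      (h.vl_mem (by omega) (DD_mem (2 * m)))
    have h3 := congrArg (fun f : Module.End ℂ M => f (XX e m v)) h2
    have h4 : vl s (DD (2 * m)) (e (2 * m + 1) (XX e m v)) =
        e (2 * m + 1) (vl s (DD (2 * m)) (XX e m v)) := h3
    have h5 : XX e (m + 1) v = e (2 * m + 1) (XX e m v) := rfl
    rw [h1, vl_mul_apply, vl_mul_apply, h5, h4, ih (by omega) fun t ht => hv t (by omega),
      h.slide_down (by omega) (hv m (Nat.lt_succ_self m))]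

theorem Rep.FF_eq {A τ : ℂ} {N : ℕ} {e : ℕ → Module.End ℂ M} {s : ℕ → (Module.End ℂ M)ˣ}
    (h : Rep A τ N e s) {v : M} {m : ℕ} (hm : 2 * m + 1 ≤ N)
    (hv : ∀ t, t ≤ m → Cup τ N e (2 * t) v) :
    vl s (FF (2 * m + 1)) v = (A⁻¹ ^ 6) • v := by
  have h1 : vl s (FF (2 * m)) v = v := by
    unfold FF
    rw [vl_mul_apply, h.UU_eq m (by omega) fun t ht => hv t ht.le,
      h.DD_eq m (by omega) fun t ht => hv t ht.le]
  have h2 := h.twist (i := 2 * m) (by omega) (hv m le_rfl)
  rw [FF_succ, vl_mul_apply, vl_mul_apply, h2, map_smul, map_smul, h1, h2, smul_smul]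
  congr 1
  ring

/-- the last strand acts by a scalar on the module generated by `v` -/
theorem Rep.scal {A τ : ℂ} {N : ℕ} {e : ℕ → Module.End ℂ M} {s : ℕ → (Module.End ℂ M)ˣ}
    (h : Rep A τ N e s) {v : M} {m : ℕ} (hm0 : 1 ≤ m) (hm : 2 * m + 1 = N)
    (hv : ∀ t, t ≤ m → Cup τ N e (2 * t) v) {x : Module.End ℂ M} (hx : x ∈ S e N) :
    vl s (FF N) (x v) = (A⁻¹ ^ 6) • x v := by
  subst hm
  have h1 : ∃ y ∈ S e (2 * m), x v = y v := by
    have h2 := S_succ (h.tl.ce (2 * m) (by omega)) hx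
    clear hx
    induction h2 using Submodule.span_induction with
    | mem x hx =>
      rcases hx with hx | ⟨a, ha, b, hb, rfl⟩
      · exact ⟨x, hx, rfl⟩
      · obtain ⟨c, hc, hce⟩ := h.tl.ce (2 * m) (by omega) b hb
        refine ⟨a * c, mul_mem ha (S_mono e (Nat.sub_le _ _) hc), ?_⟩
        have h3 := (hv m le_rfl).down (2 * m - 1) (by omega)
        have h4 : (a * e (2 * m) * b) v = a (e (2 * m) (b (e (2 * m) (e (2 * m - 1) v)))) := by
          rw [h3]; rfl
        have h5 : e (2 * m) (b (e (2 * m) (e (2 * m - 1) v))) =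
            c (e (2 * m) (e (2 * m - 1) v)) := by
          have := congrArg (fun f : Module.End ℂ M => f (e (2 * m - 1) v)) hce
          exact this
        rw [h4, h5, h3]
        rfl
    | zero => exact ⟨0, zero_mem _, rfl⟩
    | add x y _ _ hx hy =>
      obtain ⟨a, ha, hae⟩ := hx
      obtain ⟨b, hb, hbe⟩ := hy
      exact ⟨a + b, add_mem ha hb, by rw [LinearMap.add_apply, hae, hbe, LinearMap.add_apply]⟩
    | smul c x _ hx =>
      obtain ⟨a, ha, hae⟩ := hx
      exact ⟨c • a, Subalgebra.smul_mem _ ha _, by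
        rw [LinearMap.smul_apply, hae, LinearMap.smul_apply]⟩
  obtain ⟨y, hy, hxy⟩ := h1
  rw [hxy]
  have h2 := h.FF_S (p := 2 * m) le_rfl hy
  have h3 := congrArg (fun f : Module.End ℂ M => f v) h2
  have h4 : y (vl s (FF (2 * m + 1)) v) = vl s (FF (2 * m + 1)) (y v) := h3
  rw [← h4, h.FF_eq le_rfl hv, map_smul]

end module

end Pool.Agent.TLU
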