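import Pool.Agent.TLU.Hur
import Pool.Agent.TLU.Full

set_option autoImplicit false

/-!
# The commutator with the last strand around the others is not trivial
-/

namespace Pool.Agent.TLU

attribute [local irreducible] XL W1 w W

/-- the product of `x i, ..., x (i+l-1)` acting on `v` -/
def pr (x : ℕ → Fin 6) : ℕ → ℕ → Fin 6 → Fin 6
  | 0, _, v => v
  | l + 1, i, v => op (x i) (pr x l (i + 1) v)

theorem op_idem : ∀ a : Fin 6, op a a = a := by decide

theorem op_faith : ∀ a b : Fin 6, a ≠ b → ∃ c, op a c ≠ op b c := by decide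

theorem op_inj (a : Fin 6) {b c : Fin 6} (h : op a b = op a c) : b = c := by
  rw [← op_op a b, h, op_op]

theorem pr_congr {x y : ℕ → Fin 6} : ∀ (l i : ℕ), (∀ j, i ≤ j → j < i + l → x j = y j) →
    ∀ v, pr x l i v = pr y l i v := by
  intro l
  induction l with
  | zero => intro i _ v; rfl
  | succ l ih =>
    intro i h v
    rw [pr, pr, h i le_rfl (by omega), ih (i + 1) fun j h1 h2 => h j (by omega) (by omega)]

theorem pr_snoc (x : ℕ → Fin 6) : ∀ (l i : ℕ) (v : Fin 6),
    pr x (l + 1) i v = pr x l i (op (x (i + l)) v) := by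
  intro l
  induction l with
  | zero => intro i v; rfl
  | succ l ih =>
    intro i v
    have e : i + (l + 1) = i + 1 + l := by omega
    rw [pr, ih, pr, e]

theorem pr_inj (x : ℕ → Fin 6) : ∀ (l i : ℕ) (v v' : Fin 6), pr x l i v = pr x l i v' → v = v' := by
  intro l
  induction l with
  | zero => intro i v v' h; exact h
  | succ l ih =>
    intro i v v' h
    rw [pr, pr] at h
    exact ih _ _ _ (op_inj _ h)

theorem pr_fwd (j : ℕ) (x : ℕ → Fin 6) : ∀ (l i : ℕ), i ≤ j → j + 1 < i + l → ∀ v,
    pr (fwd j x) l i v = pr x l i v := by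
  intro l
  induction l with
  | zero => intro i h1 h2; omega
  | succ l ih =>
    intro i h1 h2 v
    rcases Nat.lt_or_eq_of_le h1 with h3 | h3
    · rw [pr, pr, ih (i + 1) (by omega) (by omega)]
      congr 1
      unfold fwd
      rw [if_neg (by omega), if_neg (by omega)]
    · subst h3
      obtain ⟨l', rfl⟩ : ∃ l', l = l' + 1 := ⟨l - 1, by omega⟩
      rw [pr, pr, pr, pr]
      have e1 : fwd i x i = op (x i) (x (i + 1)) := by unfold fwd; rw [if_pos rfl]
      have e2 : fwd i x (i + 1) = x i := by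
        unfold fwd; rw [if_neg (by omega), if_pos rfl]
      rw [e1, e2, pr_congr (y := x) l' (i + 1 + 1) (fun j h4 _ => by
        unfold fwd; rw [if_neg (by omega), if_neg (by omega)])]
      exact (op_dist _ _ _).symm

theorem pr_sh {m : ℕ} {g : FreeGroup ℕ} (hg : g ∈ C m) (a l i : ℕ) (h1 : i ≤ a)
    (h2 : a + m < i + l) : ∀ (x : ℕ → Fin 6) (v : Fin 6),
      pr (th (sh a g) x) l i v = pr x l i v := by
  induction hg using Subgroup.closure_induction with
  | mem g hg =>
    obtain ⟨j, hj, rfl⟩ := hg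
    have hj' : j < m := hj
    intro x v
    have e : sh a (FreeGroup.of j) = FreeGroup.of (a + j) := by simp [sh]
    rw [e, th_of, pr_fwd _ _ _ _ (by omega) (by omega)]
  | one => intro x v; rw [map_one, map_one]; rfl
  | mul g k _ _ hg hk => intro x v; rw [map_mul, th_mul, hg, hk]
  | inv g _ hg =>
    intro x v
    have h3 := hg (th (sh a g⁻¹) x) v
    rw [← th_mul, ← map_mul, mul_inv_cancel, map_one, map_one] at h3
    exact h3.symm

theorem UU_zero : ∀ (N : ℕ) (x : ℕ → Fin 6), th (UU N) x 0 = pr x N 0 (x N) := by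
  intro N
  induction N with
  | zero => intro x; rw [UU, map_one]; rfl
  | succ N ih =>
    intro x
    rw [UU, th_mul, th_of, ih, pr_snoc, Nat.zero_add]
    have e1 : fwd N x N = op (x N) (x (N + 1)) := by unfold fwd; rw [if_pos rfl]
    rw [e1]
    exact pr_congr N 0 (fun j _ h => by
      unfold fwd; rw [if_neg (by omega), if_neg (by omega)]) _

theorem UU_succ : ∀ (N : ℕ) (x : ℕ → Fin 6) (i : ℕ), i < N → th (UU N) x (i + 1) = x i := by
  intro N
  induction N with
  | zero => intro x i h; omega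
  | succ N ih =>
    intro x i h
    rw [UU, th_mul, th_of]
    rcases Nat.lt_succ_iff_lt_or_eq.1 h with h1 | rfl
    · rw [ih _ i h1]
      unfold fwd
      rw [if_neg (by omega), if_neg (by omega)]
    · rw [th_above (UU_mem i) _ _ (Nat.lt_succ_self i)]
      unfold fwd
      rw [if_neg (by omega), if_pos rfl]

theorem DD_zero (x : ℕ → Fin 6) : ∀ N, 1 ≤ N → th (DD N) x 0 = op (x 0) (x 1) := by
  intro N
  induction N with
  | zero => intro h; omega
  | succ N ih =>
    intro _
    rw [DD, th_mul, th_of]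
    rcases Nat.eq_zero_or_pos N with rfl | h1
    · rw [DD, map_one]
      unfold fwd
      rw [if_pos rfl]
      rfl
    · have e : fwd N (th (DD N) x) 0 = th (DD N) x 0 := by
        unfold fwd; rw [if_neg (by omega), if_neg (by omega)]
      rw [e, ih h1]

theorem FF_at_zero (x : ℕ → Fin 6) {N : ℕ} (hN : 1 ≤ N) :
    th (FF N) x 0 = op (pr x N 0 (x N)) (x 0) := by
  unfold FF
  rw [th_mul, DD_zero _ N hN, UU_zero, UU_succ N x 0 (by omega)]

/-- the commutator of the last strand around the others with the shifted element -/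
theorem th_FW_ne (k a : ℕ) (ha : 1 ≤ a) :
    th (FF (a + 4 * (k + 1)) * sh a (W k) * (FF (a + 4 * (k + 1)))⁻¹ * (sh a (W k))⁻¹) ≠ 1 := by
  intro h
  set m := 4 * (k + 1) with hm
  obtain ⟨x', -, hx1, hx2⟩ := W_moves k (fun _ => 0)
  rw [← hm] at hx1 hx2
  have hW : W k ∈ C m := W_mem k
  -- the commutation
  have h1 : th (FF (a + m)) * th (sh a (W k)) = th (sh a (W k)) * th (FF (a + m)) := by
    rw [map_mul, map_mul, map_mul, map_inv, map_inv] at h
    have h2 : th (FF (a + m)) * th (sh a (W k)) * (th (FF (a + m)))⁻¹ =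
        th (sh a (W k)) := mul_inv_eq_one.1 h
    exact mul_inv_eq_iff_eq_mul.1 h2
  have h3 : ∀ x, th (FF (a + m)) (th (sh a (W k)) x) = th (sh a (W k)) (th (FF (a + m)) x) :=
    fun x => congrArg (fun f : Equiv.Perm (ℕ → Fin 6) => f x) h1
  let xc : Fin 6 → ℕ → Fin 6 := fun c j => if j = 0 then c else if j < a then 0 else x' (j - a)
  have hxc : ∀ c, (fun i => xc c (a + i)) = x' := by
    intro c
    funext i
    show (if a + i = 0 then c else if a + i < a then 0 else x' (a + i - a)) = x' i
    rw [if_neg (by omega), if_neg (by omega), Nat.add_sub_cancel_left]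
  have hlast : ∀ c, xc c (a + m) = 3 := by
    intro c
    have := congrFun (hxc c) m
    rw [hx1] at this
    exact this
  have hlast' : ∀ c, th (sh a (W k)) (xc c) (a + m) = 2 := by
    intro c
    rw [(th_shift a (W k) (xc c)).1 m, hxc c]
    exact hx2
  have hzero : ∀ c, th (sh a (W k)) (xc c) 0 = c := by
    intro c
    rw [(th_shift a (W k) (xc c)).2 0 (by omega)]
    rfl
  -- the two elements `ζ`, `ζ'`
  obtain ⟨b, hb⟩ : ∃ b, a + m = b + 1 := ⟨a + m - 1, by omega⟩
  set z : Fin 6 := pr (xc 0) (a + m) 1 3 with hz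
  set z' : Fin 6 := pr (xc 0) (a + m) 1 2 with hz'
  have hzz : z ≠ z' := fun h => absurd (pr_inj _ _ _ _ _ h) (by decide)
  obtain ⟨c, hc⟩ := op_faith z z' hzz
  have hind : ∀ v, pr (xc c) (a + m) 1 v = pr (xc 0) (a + m) 1 v := by
    refine pr_congr _ _ fun j hj _ => ?_
    show (if j = 0 then c else if j < a then 0 else x' (j - a)) =
      (if j = 0 then 0 else if j < a then 0 else x' (j - a))
    have h0 : ¬ j = 0 := by omega
    rw [if_neg h0, if_neg h0]
  -- `pr x (a+m) 0 (x (a+m)) = op (x 0) (pr x (a+m) 1 (x (a+m)))`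
  have hpr : ∀ x : ℕ → Fin 6, pr x (a + m) 0 (x (a + m)) =
      op (x 0) (pr x (a + m) 1 (x (a + m))) := by
    intro x
    have e1 : pr x (a + m) 1 (x (a + m)) = pr x b 1 (x (a + m)) := by
      have e3 : (1 + b) = a + m := by omega
      conv_lhs => rw [hb]
      rw [pr_snoc, e3, hb, op_idem]
    rw [e1]
    conv_lhs => rw [hb]
    rw [pr, hb]
  have h4 := congrFun (h3 (xc c)) 0
  rw [FF_at_zero _ (by omega), (th_shift a (W k) (th (FF (a + m)) (xc c))).2 0 (by omega),
    FF_at_zero _ (by omega), hpr, hpr, hlast, hlast', hzero] at h4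
  have h5 : pr (th (sh a (W k)) (xc c)) (a + m) 1 2 = pr (xc c) (a + m) 1 2 :=
    pr_sh hW a (a + m) 1 ha (by omega) _ _
  have h6 : xc c 0 = c := rfl
  rw [h5, hind, hind, h6, ← hz, ← hz'] at h4
  -- `op (op c z') c = op (op c z) c`
  have h7 : ∀ u : Fin 6, op (op c u) c = op c (op u c) := by
    intro u
    rw [op_dist, op_idem]
  rw [h7, h7] at h4
  exact hc (op_inj c h4).symm

end Pool.Agent.TLU
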