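import Mathlib

set_option autoImplicit false

/-!
# Systems of Temperley-Lieb generators and the ideals of products of non-adjacent generators

`S e p` is the algebra generated by `e 0, ..., e (p-1)`; `E e k p` is the set of products of `k`
pairwise non-adjacent generators of index `< p`; `J e k p` is the two-sided ideal of `S e p` generated
by `E e k p`.
-/

namespace Pool.Agent.TLU

variable {T : Type} [Ring T] [Algebra ℂ T]

/-- the Temperley-Lieb relations for `e 0, ..., e (N-1)` -/
structure TLS (τ : ℂ) (N : ℕ) (e : ℕ → T) : Prop where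
  comm : ∀ i j, i + 1 < j → j < N → e i * e j = e j * e i
  up : ∀ i, i + 1 < N → e i * e (i + 1) * e i = e i
  down : ∀ i, i + 1 < N → e (i + 1) * e i * e (i + 1) = e (i + 1)
  sq : ∀ i, i < N → e i * e i = τ • e i

/-- the subalgebra generated by the first `p` generators -/
def S (e : ℕ → T) (p : ℕ) : Subalgebra ℂ T := Algebra.adjoin ℂ (e '' Set.Iio p)

/-- products of `k` pairwise non-adjacent generators of index `< p` -/
def E (e : ℕ → T) : ℕ → ℕ → Set T
  | 0, _ => {1}
  | k + 1, p => {z | ∃ i, i < p ∧ ∃ x ∈ E e k (i - 1), z = x * e i}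

/-- the two-sided ideal of `S e p` generated by the products of `k` non-adjacent generators -/
def J (e : ℕ → T) (k p : ℕ) : Submodule ℂ T :=
  Submodule.span ℂ {z | ∃ a ∈ S e p, ∃ x ∈ E e k p, ∃ b ∈ S e p, z = a * x * b}

theorem e_mem (e : ℕ → T) {i p : ℕ} (h : i < p) : e i ∈ S e p :=
  Algebra.subset_adjoin ⟨i, h, rfl⟩

theorem S_mono (e : ℕ → T) {p q : ℕ} (h : p ≤ q) : S e p ≤ S e q :=
  Algebra.adjoin_mono (Set.image_mono (Set.Iio_subset_Iio h))

omit [Algebra ℂ T] in
theorem E_mono (e : ℕ → T) {k p q : ℕ} (h : p ≤ q) : E e k p ⊆ E e k q := by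
  cases k with
  | zero => exact fun x hx => hx
  | succ k =>
    rintro z ⟨i, hi, x, hx, rfl⟩
    exact ⟨i, lt_of_lt_of_le hi h, x, hx, rfl⟩

theorem E_sub (e : ℕ → T) : ∀ (k p : ℕ), E e k p ⊆ (S e p : Set T) := by
  intro k
  induction k with
  | zero => intro p x hx; rw [Set.mem_singleton_iff.1 hx]; exact one_mem _
  | succ k ih =>
    rintro p z ⟨i, hi, x, hx, rfl⟩
    exact mul_mem (S_mono e (by omega) (ih _ hx)) (e_mem e hi)

theorem J_sub (e : ℕ → T) (k p : ℕ) {z : T} (hz : z ∈ J e k p) : z ∈ S e p := by
  have : J e k p ≤ Subalgebra.toSubmodule (S e p) := by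
    apply Submodule.span_le.2
    rintro z ⟨a, ha, x, hx, b, hb, rfl⟩
    show a * x * b ∈ S e p
    exact mul_mem (mul_mem ha (E_sub e k p hx)) hb
  exact this hz

theorem J_mono (e : ℕ → T) {k p q : ℕ} (h : p ≤ q) : J e k p ≤ J e k q := by
  apply Submodule.span_mono
  rintro z ⟨a, ha, x, hx, b, hb, rfl⟩
  exact ⟨a, S_mono e h ha, x, E_mono e h hx, b, S_mono e h hb, rfl⟩

theorem J_left (e : ℕ → T) {k p : ℕ} {s z : T} (hs : s ∈ S e p) (hz : z ∈ J e k p) :
    s * z ∈ J e k p := by
  induction hz using Submodule.span_induction with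
  | mem z hz =>
    obtain ⟨a, ha, x, hx, b, hb, rfl⟩ := hz
    exact Submodule.subset_span ⟨s * a, mul_mem hs ha, x, hx, b, hb, by noncomm_ring⟩
  | zero => rw [mul_zero]; exact zero_mem _
  | add x y _ _ hx hy => rw [mul_add]; exact add_mem hx hy
  | smul c x _ hx => rw [mul_smul_comm]; exact Submodule.smul_mem _ _ hx

theorem J_right (e : ℕ → T) {k p : ℕ} {s z : T} (hs : s ∈ S e p) (hz : z ∈ J e k p) :
    z * s ∈ J e k p := by
  induction hz using Submodule.span_induction with
  | mem z hz =>
    obtain ⟨a, ha, x, hx, b, hb, rfl⟩ := hz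
    exact Submodule.subset_span ⟨a, ha, x, hx, b * s, mul_mem hb hs, by noncomm_ring⟩
  | zero => rw [zero_mul]; exact zero_mem _
  | add x y _ _ hx hy => rw [add_mul]; exact add_mem hx hy
  | smul c x _ hx => rw [smul_mul_assoc]; exact Submodule.smul_mem _ _ hx

theorem J_of (e : ℕ → T) {k p : ℕ} {x : T} (hx : x ∈ E e k p) : x ∈ J e k p :=
  Submodule.subset_span ⟨1, one_mem _, x, hx, 1, one_mem _, by rw [one_mul, mul_one]⟩

/-- generators far away commute with `S e p` -/
theorem comm_far {e : ℕ → T} {p : ℕ} {y : T} (h : ∀ i, i < p → e i * y = y * e i) {x : T}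
    (hx : x ∈ S e p) : x * y = y * x := by
  induction hx using Algebra.adjoin_induction with
  | mem x hx => obtain ⟨i, hi, rfl⟩ := hx; exact h i hi
  | algebraMap c => exact Algebra.commutes c y
  | add x z _ _ hx hz => rw [add_mul, mul_add, hx, hz]
  | mul x z _ _ hx hz => rw [mul_assoc, hz, ← mul_assoc, hx, mul_assoc]

theorem TLS.comm_S {τ : ℂ} {N : ℕ} {e : ℕ → T} (h : TLS τ N e) {p q : ℕ} (hpq : p < q)
    (hq : q < N) {x : T} (hx : x ∈ S e p) : x * e q = e q * x :=
  comm_far (fun i hi => h.comm i q (by omega) hq) hx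

/-- the shift of a system -/
theorem TLS.shift {τ : ℂ} {N : ℕ} {e : ℕ → T} (h : TLS τ N e) (p : ℕ) :
    TLS τ (N - p) (fun i => e (p + i)) where
  comm i j h1 h2 := h.comm (p + i) (p + j) (by omega) (by omega)
  up i h1 := h.up (p + i) (by omega)
  down i h1 := h.down (p + i) (by omega)
  sq i h1 := h.sq (p + i) (by omega)

theorem comm_two {τ : ℂ} {N : ℕ} {e : ℕ → T} (h : TLS τ N e) {p q : ℕ} (hN : p + q ≤ N)
    {x y : T} (hx : x ∈ S e (p - 1)) (hy : y ∈ S (fun i => e (p + i)) q) : x * y = y * x := by
  refine comm_far (fun i hi => ?_) hx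
  refine (comm_far (fun j hj => ?_) hy).symm
  exact (h.comm i (p + j) (by omega) (by omega)).symm

/-- generators of the next algebra -/
def G (e : ℕ → T) (p : ℕ) : Set T :=
  {z | z ∈ S e p ∨ ∃ a ∈ S e p, ∃ b ∈ S e p, z = a * e p * b}

/-- `e_p S_p e_p` is in `S_{p-1} e_p` -/
def CE (e : ℕ → T) (p : ℕ) : Prop := ∀ x ∈ S e p, ∃ s ∈ S e (p - 1), e p * x * e p = s * e p

theorem G_mul {e : ℕ → T} {p : ℕ} (h : CE e p) {x y : T} (hx : x ∈ G e p) (hy : y ∈ G e p) :
    x * y ∈ G e p := by
  rcases hx with hx | ⟨a, ha, b, hb, rfl⟩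
  · rcases hy with hy | ⟨c, hc, d, hd, rfl⟩
    · exact Or.inl (mul_mem hx hy)
    · exact Or.inr ⟨x * c, mul_mem hx hc, d, hd, by noncomm_ring⟩
  · rcases hy with hy | ⟨c, hc, d, hd, rfl⟩
    · exact Or.inr ⟨a, ha, b * y, mul_mem hb hy, by noncomm_ring⟩
    · obtain ⟨s, hs, hse⟩ := h (b * c) (mul_mem hb hc)
      refine Or.inr ⟨a * s, mul_mem ha (S_mono e (Nat.sub_le _ _) hs), d, hd, ?_⟩
      have : a * e p * b * (c * e p * d) = a * (e p * (b * c) * e p) * d := by noncomm_ring
      rw [this, hse]
      noncomm_ring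

theorem S_succ {e : ℕ → T} {p : ℕ} (h : CE e p) {x : T} (hx : x ∈ S e (p + 1)) :
    x ∈ Submodule.span ℂ (G e p) := by
  induction hx using Algebra.adjoin_induction with
  | mem x hx =>
    obtain ⟨i, hi, rfl⟩ := hx
    apply Submodule.subset_span
    rcases Nat.lt_succ_iff_lt_or_eq.1 hi with h1 | rfl
    · exact Or.inl (e_mem e h1)
    · exact Or.inr ⟨1, one_mem _, 1, one_mem _, by rw [one_mul, mul_one]⟩
  | algebraMap c => exact Submodule.subset_span (Or.inl (Subalgebra.algebraMap_mem _ c))
  | add x y _ _ hx hy => exact add_mem hx hy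
  | mul x y _ _ hx hy =>
    have h1 : x * y ∈ Submodule.span ℂ (G e p) * Submodule.span ℂ (G e p) :=
      Submodule.mul_mem_mul hx hy
    rw [Submodule.span_mul_span] at h1
    refine Submodule.span_mono ?_ h1
    rintro _ ⟨a, ha, b, hb, rfl⟩
    exact G_mul h ha hb

theorem TLS.ce {τ : ℂ} {N : ℕ} {e : ℕ → T} (h : TLS τ N e) : ∀ p, p < N → CE e p := by
  intro p
  induction p with
  | zero =>
    intro hN x hx
    have h1 : x ∈ (⊥ : Subalgebra ℂ T) := by
      have : S e 0 = ⊥ := by
        unfold S
        rw [show (Set.Iio 0 : Set ℕ) = ∅ from by ext i; simp, Set.image_empty,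
          Algebra.adjoin_empty]
      rwa [this] at hx
    obtain ⟨c, rfl⟩ := Algebra.mem_bot.1 h1
    refine ⟨algebraMap ℂ T (c * τ), Subalgebra.algebraMap_mem _ _, ?_⟩
    rw [← Algebra.commutes, mul_assoc, h.sq 0 hN, map_mul, mul_assoc, Algebra.smul_def]
  | succ p ih =>
    intro hN x hx
    have ih' := ih (by omega)
    have h1 := S_succ ih' hx
    rw [Nat.add_sub_cancel]
    clear hx
    induction h1 using Submodule.span_induction with
    | mem x hx =>
      rcases hx with hx | ⟨a, ha, b, hb, rfl⟩
      · refine ⟨τ • x, Subalgebra.smul_mem _ hx _, ?_⟩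
        rw [← h.comm_S (Nat.lt_succ_self p) hN hx, mul_assoc, h.sq _ hN]
        rw [mul_smul_comm, smul_mul_assoc]
      · refine ⟨a * b, mul_mem ha hb, ?_⟩
        have h2 := h.comm_S (Nat.lt_succ_self p) hN ha
        have h3 := h.comm_S (Nat.lt_succ_self p) hN hb
        calc e (p + 1) * (a * e p * b) * e (p + 1)
            = (e (p + 1) * a) * e p * (b * e (p + 1)) := by noncomm_ring
          _ = a * (e (p + 1) * e p * e (p + 1)) * b := by rw [← h2, h3]; noncomm_ring
          _ = a * (e (p + 1) * b) := by rw [h.down p hN]; noncomm_ring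
          _ = a * b * e (p + 1) := by rw [← h3]; noncomm_ring
    | zero => exact ⟨0, zero_mem _, by simp⟩
    | add x y _ _ hx hy =>
      obtain ⟨s, hs, hse⟩ := hx
      obtain ⟨t, ht, hte⟩ := hy
      exact ⟨s + t, add_mem hs ht, by rw [mul_add, add_mul, hse, hte, add_mul]⟩
    | smul c x _ hx =>
      obtain ⟨s, hs, hse⟩ := hx
      exact ⟨c • s, Subalgebra.smul_mem _ hs _, by
        rw [mul_smul_comm, smul_mul_assoc, hse, smul_mul_assoc]⟩

/-- `S_p J_k(p-1)` -/
def L (e : ℕ → T) (k p : ℕ) : Submodule ℂ T :=
  Submodule.span ℂ {z | ∃ a ∈ S e p, ∃ x ∈ J e k (p - 1), z = a * x}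

/-- `J_k(p-1) S_p` -/
def R (e : ℕ → T) (k p : ℕ) : Submodule ℂ T :=
  Submodule.span ℂ {z | ∃ x ∈ J e k (p - 1), ∃ a ∈ S e p, z = x * a}

theorem L_left (e : ℕ → T) {k p : ℕ} {s z : T} (hs : s ∈ S e p) (hz : z ∈ L e k p) :
    s * z ∈ L e k p := by
  induction hz using Submodule.span_induction with
  | mem z hz =>
    obtain ⟨a, ha, x, hx, rfl⟩ := hz
    exact Submodule.subset_span ⟨s * a, mul_mem hs ha, x, hx, by noncomm_ring⟩
  | zero => rw [mul_zero]; exact zero_mem _
  | add x y _ _ hx hy => rw [mul_add]; exact add_mem hx hy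
  | smul c x _ hx => rw [mul_smul_comm]; exact Submodule.smul_mem _ _ hx

theorem L_right (e : ℕ → T) {k p : ℕ} {s z : T} (hs : s ∈ S e (p - 1)) (hz : z ∈ L e k p) :
    z * s ∈ L e k p := by
  induction hz using Submodule.span_induction with
  | mem z hz =>
    obtain ⟨a, ha, x, hx, rfl⟩ := hz
    exact Submodule.subset_span ⟨a, ha, x * s, J_right e hs hx, by noncomm_ring⟩
  | zero => rw [zero_mul]; exact zero_mem _
  | add x y _ _ hx hy => rw [add_mul]; exact add_mem hx hy
  | smul c x _ hx => rw [smul_mul_assoc]; exact Submodule.smul_mem _ _ hx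

theorem R_right (e : ℕ → T) {k p : ℕ} {s z : T} (hs : s ∈ S e p) (hz : z ∈ R e k p) :
    z * s ∈ R e k p := by
  induction hz using Submodule.span_induction with
  | mem z hz =>
    obtain ⟨x, hx, a, ha, rfl⟩ := hz
    exact Submodule.subset_span ⟨x, hx, a * s, mul_mem ha hs, by noncomm_ring⟩
  | zero => rw [zero_mul]; exact zero_mem _
  | add x y _ _ hx hy => rw [add_mul]; exact add_mem hx hy
  | smul c x _ hx => rw [smul_mul_assoc]; exact Submodule.smul_mem _ _ hx

theorem R_left (e : ℕ → T) {k p : ℕ} {s z : T} (hs : s ∈ S e (p - 1)) (hz : z ∈ R e k p) :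
    s * z ∈ R e k p := by
  induction hz using Submodule.span_induction with
  | mem z hz =>
    obtain ⟨x, hx, a, ha, rfl⟩ := hz
    exact Submodule.subset_span ⟨s * x, J_left e hs hx, a, ha, by noncomm_ring⟩
  | zero => rw [mul_zero]; exact zero_mem _
  | add x y _ _ hx hy => rw [mul_add]; exact add_mem hx hy
  | smul c x _ hx => rw [mul_smul_comm]; exact Submodule.smul_mem _ _ hx

/-- the last factor commutes with the others -/
theorem E_comm {τ : ℂ} {N : ℕ} {e : ℕ → T} (h : TLS τ N e) {k i : ℕ} (hi : i < N) {x : T}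
    (hx : x ∈ E e k (i - 1)) : x * e i = e i * x := by
  rcases Nat.eq_zero_or_pos i with rfl | hi0
  · cases k with
    | zero => rw [Set.mem_singleton_iff.1 hx, one_mul, mul_one]
    | succ k => obtain ⟨j, hj, _⟩ := hx; omega
  · exact h.comm_S (p := i - 1) (by omega) hi (E_sub e _ _ hx)

theorem J_le_L {τ : ℂ} {N : ℕ} {e : ℕ → T} (h : TLS τ N e) (k : ℕ) :
    ∀ p, p ≤ N → J e (k + 1) p ≤ L e k p := by
  intro p
  induction p with
  | zero =>
    intro _
    apply Submodule.span_le.2
    rintro z ⟨a, ha, x, ⟨i, hi, _⟩, b, hb, rfl⟩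
    omega
  | succ q ih =>
    intro hN
    have ih' := ih (by omega)
    apply Submodule.span_le.2
    rintro z ⟨a, ha, _, ⟨i, hi, x, hx, rfl⟩, b, hb, rfl⟩
    rw [mul_assoc]
    refine L_left e ha ?_
    have hiN : i < N := by omega
    have hxc := E_comm h hiN hx
    have hb' := S_succ (h.ce q (by omega)) hb
    clear hb
    induction hb' using Submodule.span_induction with
    | mem b hb =>
      rcases hb with hb | ⟨u, hu, v, hv, rfl⟩
      · refine Submodule.subset_span ⟨e i, e_mem e hi, x * b, ?_, ?_⟩
        · rw [Nat.add_sub_cancel]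
          exact J_right e hb (J_of e (E_mono e (by omega) hx))
        · rw [hxc, mul_assoc]
      · have key : x * e i * u * e q ∈ L e k (q + 1) := by
          rcases Nat.lt_succ_iff_lt_or_eq.1 hi with h1 | rfl
          · -- `i < q`
            have h2 : x * e i * u ∈ J e (k + 1) q :=
              J_right e hu (J_of e ⟨i, h1, x, hx, rfl⟩)
            have h3 := ih' h2
            have h4 : ∀ z ∈ L e k q, z * e q ∈ L e k (q + 1) := by
              intro z hz
              induction hz using Submodule.span_induction with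
              | mem z hz =>
                obtain ⟨c, hc, y, hy, rfl⟩ := hz
                refine Submodule.subset_span ⟨c * e q, mul_mem (S_mono e (Nat.le_succ q) hc)
                  (e_mem e (Nat.lt_succ_self q)), y, ?_, ?_⟩
                · rw [Nat.add_sub_cancel]
                  exact J_mono e (Nat.sub_le _ _) hy
                · have h5 := h.comm_S (p := q - 1) (q := q) (by omega) (by omega)
                    (J_sub e _ _ hy)
                  rw [mul_assoc, h5, mul_assoc]
              | zero => rw [zero_mul]; exact zero_mem _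
              | add x y _ _ hx hy => rw [add_mul]; exact add_mem hx hy
              | smul c x _ hx => rw [smul_mul_assoc]; exact Submodule.smul_mem _ _ hx
            exact h4 _ h3
          · -- `i = q`
            obtain ⟨s, hs, hse⟩ := h.ce i (by omega) u hu
            have h2 : x * e i * u * e i = e i * (x * s) := by
              have h3 : s * e i = e i * s := by
                rcases Nat.eq_zero_or_pos i with h0 | h0
                · subst h0
                  refine comm_far (fun j hj => ?_) hs
                  omega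
                · exact h.comm_S (p := i - 1) (by omega) hiN hs
              calc x * e i * u * e i = x * (e i * u * e i) := by noncomm_ring
                _ = x * (e i * s) := by rw [hse, h3]
                _ = (x * e i) * s := by noncomm_ring
                _ = e i * (x * s) := by rw [hxc]; noncomm_ring
            rw [h2]
            refine Submodule.subset_span ⟨e i, e_mem e hi, x * s, ?_, rfl⟩
            rw [Nat.add_sub_cancel]
            exact J_mono e (Nat.sub_le _ _) (J_right e hs (J_of e hx))
        have h1 := L_right e (s := v) (p := q + 1) (by rwa [Nat.add_sub_cancel]) key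
        have h2 : x * e i * (u * e q * v) = x * e i * u * e q * v := by noncomm_ring
        rw [h2]
        exact h1
    | zero => rw [mul_zero]; exact zero_mem _
    | add y z _ _ hy hz => rw [mul_add]; exact add_mem hy hz
    | smul c y _ hy => rw [mul_smul_comm]; exact Submodule.smul_mem _ _ hy

theorem J_le_R {τ : ℂ} {N : ℕ} {e : ℕ → T} (h : TLS τ N e) (k : ℕ) :
    ∀ p, p ≤ N → J e (k + 1) p ≤ R e k p := by
  intro p
  induction p with
  | zero =>
    intro _
    apply Submodule.span_le.2
    rintro z ⟨a, ha, x, ⟨i, hi, _⟩, b, hb, rfl⟩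
    omega
  | succ q ih =>
    intro hN
    have ih' := ih (by omega)
    apply Submodule.span_le.2
    rintro z ⟨a, ha, _, ⟨i, hi, x, hx, rfl⟩, b, hb, rfl⟩
    refine R_right e hb ?_
    have hiN : i < N := by omega
    have hxc := E_comm h hiN hx
    have ha' := S_succ (h.ce q (by omega)) ha
    clear ha
    induction ha' using Submodule.span_induction with
    | mem a ha =>
      rcases ha with ha | ⟨v, hv, u, hu, rfl⟩
      · refine Submodule.subset_span ⟨a * x, ?_, e i, e_mem e hi, by noncomm_ring⟩
        rw [Nat.add_sub_cancel]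
        exact J_left e ha (J_of e (E_mono e (by omega) hx))
      · have key : e q * u * (x * e i) ∈ R e k (q + 1) := by
          rcases Nat.lt_succ_iff_lt_or_eq.1 hi with h1 | rfl
          · -- `i < q`
            have h2 : u * (x * e i) ∈ J e (k + 1) q :=
              J_left e hu (J_of e ⟨i, h1, x, hx, rfl⟩)
            have h3 := ih' h2
            have h4 : ∀ z ∈ R e k q, e q * z ∈ R e k (q + 1) := by
              intro z hz
              induction hz using Submodule.span_induction with
              | mem z hz =>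
                obtain ⟨y, hy, c, hc, rfl⟩ := hz
                refine Submodule.subset_span ⟨y, ?_, e q * c, mul_mem
                  (e_mem e (Nat.lt_succ_self q)) (S_mono e (Nat.le_succ q) hc), ?_⟩
                · rw [Nat.add_sub_cancel]
                  exact J_mono e (Nat.sub_le _ _) hy
                · have h5 := h.comm_S (p := q - 1) (q := q) (by omega) (by omega)
                    (J_sub e _ _ hy)
                  rw [← mul_assoc, ← h5, mul_assoc]
              | zero => rw [mul_zero]; exact zero_mem _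
              | add x y _ _ hx hy => rw [mul_add]; exact add_mem hx hy
              | smul c x _ hx => rw [mul_smul_comm]; exact Submodule.smul_mem _ _ hx
            rw [mul_assoc]
            exact h4 _ h3
          · -- `i = q`
            obtain ⟨s, hs, hse⟩ := h.ce i (by omega) u hu
            have h2 : e i * u * (x * e i) = (s * x) * e i := by
              calc e i * u * (x * e i) = (e i * u * e i) * x := by rw [hxc]; noncomm_ring
                _ = s * (e i * x) := by rw [hse]; noncomm_ring
                _ = (s * x) * e i := by rw [← hxc]; noncomm_ring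
            rw [h2]
            refine Submodule.subset_span ⟨s * x, ?_, e i, e_mem e hi, rfl⟩
            rw [Nat.add_sub_cancel]
            exact J_mono e (Nat.sub_le _ _) (J_left e hs (J_of e hx))
        have h1 := R_left e (s := v) (p := q + 1) (by rwa [Nat.add_sub_cancel]) key
        have h2 : v * e q * u * (x * e i) = v * (e q * u * (x * e i)) := by noncomm_ring
        rw [h2]
        exact h1
    | zero => rw [zero_mul]; exact zero_mem _
    | add y z _ _ hy hz => rw [add_mul]; exact add_mem hy hz
    | smul c y _ hy => rw [smul_mul_assoc]; exact Submodule.smul_mem _ _ hy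

omit [Algebra ℂ T] in
theorem E_mul {e : ℕ → T} {k p : ℕ} {x : T} (hx : x ∈ E e k (p - 1)) :
    ∀ (l q : ℕ) (y : T), y ∈ E (fun i => e (p + i)) l q → x * y ∈ E e (k + l) (p + q) := by
  intro l
  induction l with
  | zero =>
    intro q y hy
    rw [Set.mem_singleton_iff.1 hy, mul_one]
    exact E_mono e (by omega) hx
  | succ l ih =>
    rintro q _ ⟨i, hi, y, hy, rfl⟩
    refine ⟨p + i, by omega, x * y, ?_, by rw [mul_assoc]⟩
    rcases Nat.eq_zero_or_pos i with rfl | hi0
    · cases l with
      | zero => rw [Set.mem_singleton_iff.1 hy, mul_one]; exact hx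
      | succ l => obtain ⟨j, hj, _⟩ := hy; omega
    · have h1 := ih (i - 1) y hy
      have h2 : p + (i - 1) = p + i - 1 := by omega
      rwa [h2] at h1

theorem S_shift (e : ℕ → T) (p q : ℕ) : S (fun i => e (p + i)) q ≤ S e (p + q) := by
  apply Algebra.adjoin_le
  rintro _ ⟨i, hi, rfl⟩
  exact e_mem e (Nat.add_lt_add_left hi p)

/-- the key statement -/
theorem J_mul {τ : ℂ} {N : ℕ} {e : ℕ → T} (h : TLS τ N e) {k l p q : ℕ} (hN : p + q ≤ N)
    {x y : T} (hx : x ∈ J e (k + 1) p) (hy : y ∈ J (fun i => e (p + i)) l q) :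
    x * y ∈ J e (k + l) (p + q) := by
  have hx' := J_le_L h k p (by omega) hx
  clear hx
  induction hx' using Submodule.span_induction with
  | mem x hx =>
    obtain ⟨a, ha, z, hz, rfl⟩ := hx
    rw [mul_assoc]
    refine J_left e (S_mono e (by omega) ha) ?_
    clear ha
    induction hz using Submodule.span_induction with
    | mem z hz =>
      obtain ⟨a', ha', w, hw, b', hb', rfl⟩ := hz
      induction hy using Submodule.span_induction with
      | mem y hy =>
        obtain ⟨c, hc, v, hv, d, hd, rfl⟩ := hy
        have h1 := comm_two h hN hb' (mul_mem hc (E_sub _ _ _ hv))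
        have h2 := comm_two h hN (E_sub _ _ _ hw) hc
        have h3 : a' * w * b' * (c * v * d) = (a' * c) * (w * v) * (b' * d) := by
          calc a' * w * b' * (c * v * d) = a' * w * (b' * (c * v)) * d := by noncomm_ring
            _ = a' * (w * c) * v * b' * d := by rw [h1]; noncomm_ring
            _ = (a' * c) * (w * v) * (b' * d) := by rw [h2]; noncomm_ring
        rw [h3]
        have hS : ∀ t ∈ S e (p - 1), t ∈ S e (p + q) := fun t ht => S_mono e (by omega) ht
        exact Submodule.subset_span ⟨a' * c, mul_mem (hS _ ha') (S_shift e p q hc), w * v,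
          E_mul hw l q v hv, b' * d, mul_mem (hS _ hb') (S_shift e p q hd), rfl⟩
      | zero => rw [mul_zero]; exact zero_mem _
      | add x y _ _ hx hy => rw [mul_add]; exact add_mem hx hy
      | smul c x _ hx => rw [mul_smul_comm]; exact Submodule.smul_mem _ _ hx
    | zero => rw [zero_mul]; exact zero_mem _
    | add x y _ _ hx hy => rw [add_mul]; exact add_mem hx hy
    | smul c x _ hx => rw [smul_mul_assoc]; exact Submodule.smul_mem _ _ hx
  | zero => rw [zero_mul]; exact zero_mem _
  | add x y _ _ hx hy => rw [add_mul]; exact add_mem hx hy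
  | smul c x _ hx => rw [smul_mul_assoc]; exact Submodule.smul_mem _ _ hx

theorem J_mul' {τ : ℂ} {N : ℕ} {e : ℕ → T} (h : TLS τ N e) {k l p q : ℕ} (hN : p + q ≤ N)
    {x y : T} (hx : x ∈ J e (k + 1) p) (hy : y ∈ J (fun i => e (p + i)) l q) :
    y * x ∈ J e (k + l) (p + q) := by
  have hx' := J_le_R h k p (by omega) hx
  clear hx
  induction hx' using Submodule.span_induction with
  | mem x hx =>
    obtain ⟨z, hz, a, ha, rfl⟩ := hx
    rw [← mul_assoc]
    refine J_right e (S_mono e (by omega) ha) ?_
    clear ha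
    induction hz using Submodule.span_induction with
    | mem z hz =>
      obtain ⟨a', ha', w, hw, b', hb', rfl⟩ := hz
      induction hy using Submodule.span_induction with
      | mem y hy =>
        obtain ⟨c, hc, v, hv, d, hd, rfl⟩ := hy
        have h1 := comm_two h hN ha' (mul_mem (E_sub _ _ _ hv) hd)
        have h2 := comm_two h hN (E_sub _ _ _ hw) (mul_mem (E_sub _ _ _ hv) hd)
        have h4 := comm_two h hN (E_sub _ _ _ hw) hd
        have h3 : c * v * d * (a' * w * b') = (c * a') * (w * v) * (d * b') := by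
          calc c * v * d * (a' * w * b') = c * ((v * d) * a') * w * b' := by noncomm_ring
            _ = c * a' * ((v * d) * w) * b' := by rw [← h1]; noncomm_ring
            _ = c * a' * (w * (v * d)) * b' := by rw [h2]
            _ = (c * a') * (w * v) * (d * b') := by noncomm_ring
        rw [h3]
        have hS : ∀ t ∈ S e (p - 1), t ∈ S e (p + q) := fun t ht => S_mono e (by omega) ht
        exact Submodule.subset_span ⟨c * a', mul_mem (S_shift e p q hc) (hS _ ha'), w * v,
          E_mul hw l q v hv, d * b', mul_mem (S_shift e p q hd) (hS _ hb'), rfl⟩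
      | zero => rw [zero_mul]; exact zero_mem _
      | add x y _ _ hx hy => rw [add_mul]; exact add_mem hx hy
      | smul c x _ hx => rw [smul_mul_assoc]; exact Submodule.smul_mem _ _ hx
    | zero => rw [mul_zero]; exact zero_mem _
    | add x y _ _ hx hy => rw [mul_add]; exact add_mem hx hy
    | smul c x _ hx => rw [mul_smul_comm]; exact Submodule.smul_mem _ _ hx
  | zero => rw [mul_zero]; exact zero_mem _
  | add x y _ _ hx hy => rw [mul_add]; exact add_mem hx hy
  | smul c x _ hx => rw [mul_smul_comm]; exact Submodule.smul_mem _ _ hx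

end Pool.Agent.TLU
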