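import Mathlib

set_option autoImplicit false

/-!
# The braid words

Words in the letters `0, 1, 2, ...` (the letter `i` stands for the `i`-th standard generator, `true` for the
generator, `false` for its inverse). `W 1` is Bigelow's element of the kernel of the Burau representation
of the braid group on five strands (up to conjugation); `W (k+1)` is the commutator of `W k` and the copy of `W 1` on the
strands `4k, ..., 4k+4`.
-/

namespace Pool.Agent.TLU

/-- the element of the free group given by a list of signed letters -/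
def w (L : List (ℕ × Bool)) : FreeGroup ℕ :=
  (L.map fun p => if p.2 then FreeGroup.of p.1 else (FreeGroup.of p.1)⁻¹).prod

/-- the inverse word -/
def invL (L : List (ℕ × Bool)) : List (ℕ × Bool) := (L.map fun p => (p.1, !p.2)).reverse

theorem w_append (L M : List (ℕ × Bool)) : w (L ++ M) = w L * w M := by
  unfold w; rw [List.map_append, List.prod_append]

theorem w_cons (p : ℕ × Bool) (M : List (ℕ × Bool)) :
    w (p :: M) = (if p.2 then FreeGroup.of p.1 else (FreeGroup.of p.1)⁻¹) * w M := by
  unfold w; rw [List.map_cons, List.prod_cons]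

theorem w_inv (L : List (ℕ × Bool)) : w (invL L) = (w L)⁻¹ := by
  induction L with
  | nil => simp [invL, w]
  | cons p L ih =>
    have h1 : invL (p :: L) = invL L ++ [(p.1, !p.2)] := by simp [invL]
    rw [h1, w_append, ih, w_cons p L, mul_inv_rev]
    congr 1
    rcases p with ⟨i, b⟩
    cases b <;> simp [w]

/-- the word `g` -/
def gL : List (ℕ × Bool) :=
  [(3, false), (2, true), (1, true), (0, false), (0, false), (1, true), (0, true), (0, true),
   (1, true), (1, true), (0, true), (3, true), (3, true), (3, true), (3, true), (3, true),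
   (1, false), (2, false), (3, false), (3, false), (3, false), (1, false), (0, false), (0, false),
   (1, false), (2, true)]

/-- the last of five strands around the others -/
def FL : List (ℕ × Bool) :=
  [(3, true), (2, true), (1, true), (0, true), (0, true), (1, true), (2, true), (3, true)]

/-- the commutator of the last generator with `g⁻¹ F g` -/
def XL : List (ℕ × Bool) :=
  [(3, true)] ++ (invL gL ++ FL ++ gL) ++ [(3, false)] ++ (invL gL ++ invL FL ++ gL)

/-- the base element -/
def W1 : FreeGroup ℕ := w XL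

/-- the shift of words -/
def sh (p : ℕ) : FreeGroup ℕ →* FreeGroup ℕ := FreeGroup.map (fun i => p + i)

/-- the elements: `W k` is the element with index `k + 1`, on the strands `0, ..., 4 (k+1)` -/
def W : ℕ → FreeGroup ℕ
  | 0 => W1
  | k + 1 => W k * sh (4 * (k + 1)) W1 * (W k)⁻¹ * (sh (4 * (k + 1)) W1)⁻¹

/-- the words in the first `m` letters -/
def C (m : ℕ) : Subgroup (FreeGroup ℕ) := Subgroup.closure (FreeGroup.of '' Set.Iio m)

theorem of_mem {i m : ℕ} (h : i < m) : FreeGroup.of i ∈ C m := Subgroup.subset_closure ⟨i, h, rfl⟩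

theorem C_mono {m n : ℕ} (h : m ≤ n) : C m ≤ C n :=
  Subgroup.closure_mono (Set.image_mono (Set.Iio_subset_Iio h))

theorem w_mem {L : List (ℕ × Bool)} {m : ℕ} (h : ∀ p ∈ L, p.1 < m) : w L ∈ C m := by
  induction L with
  | nil => simp [w]
  | cons p L ih =>
    rw [w_cons]
    refine mul_mem ?_ (ih fun q hq => h q (List.mem_cons_of_mem _ hq))
    have h1 := of_mem (h p List.mem_cons_self)
    split_ifs
    · exact h1
    · exact inv_mem h1

theorem XL_lt : ∀ p ∈ XL, p.1 < 4 := by decide

theorem W1_mem : W1 ∈ C 4 := w_mem XL_lt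

theorem W_zero : W 0 = W1 := by rw [W]

theorem W_succ (k : ℕ) :
    W (k + 1) = W k * sh (4 * (k + 1)) W1 * (W k)⁻¹ * (sh (4 * (k + 1)) W1)⁻¹ := by rw [W]

theorem W1_eq : W1 = w XL := by rw [W1]

theorem sh_mem {x : FreeGroup ℕ} {m : ℕ} (p : ℕ) (hx : x ∈ C m) : sh p x ∈ C (p + m) := by
  have h1 : (C m).map (sh p) ≤ C (p + m) := by
    unfold C
    rw [MonoidHom.map_closure]
    rw [Subgroup.closure_le]
    rintro _ ⟨_, ⟨i, hi, rfl⟩, rfl⟩
    have h2 : sh p (FreeGroup.of i) = FreeGroup.of (p + i) := by simp [sh]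
    rw [h2]
    exact of_mem (Nat.add_lt_add_left hi p)
  exact h1 ⟨x, hx, rfl⟩

theorem W_mem (k : ℕ) : W k ∈ C (4 * (k + 1)) := by
  induction k with
  | zero => exact W1_mem
  | succ k ih =>
    have h1 : W k ∈ C (4 * (k + 1 + 1)) := C_mono (by omega) ih
    have h2 : sh (4 * (k + 1)) W1 ∈ C (4 * (k + 1 + 1)) := sh_mem _ W1_mem
    exact mul_mem (mul_mem (mul_mem h1 h2) (inv_mem h1)) (inv_mem h2)

/-- two homomorphisms that agree on the first letters -/
theorem lift_congr {H : Type*} [Group H] {f g : FreeGroup ℕ →* H} {m : ℕ}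
    (h : ∀ i, i < m → f (FreeGroup.of i) = g (FreeGroup.of i)) {x : FreeGroup ℕ} (hx : x ∈ C m) :
    f x = g x := by
  have h1 : Set.EqOn f g (C m) := by
    apply MonoidHom.eqOn_closure
    rintro _ ⟨i, hi, rfl⟩
    exact h i hi
  exact h1 hx

end Pool.Agent.TLU
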