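import Pool.Agent.TLU.Alg
import Pool.Agent.TLU.Word

set_option autoImplicit false

/-!
# The base element acts trivially modulo `J 2`

Modulo the products of two non-adjacent generators the left multiplication on
`e 0, e 1 e 0, e 2 e 1 e 0, e 3 e 2 e 1 e 0` is the (reduced) Burau representation. `col`, `row`: the columns and rows;
`av`: the action of a letter on coordinates, `q = A^4`. `avL`: the same with integer polynomials in `q` given by
the list of their coefficients.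
-/

namespace Pool.Agent.TLU

/-! ### Polynomials as lists -/

/-- sum of polynomials -/
def padd : List ℤ → List ℤ → List ℤ
  | [], b => b
  | a, [] => a
  | x :: a, y :: b => (x + y) :: padd a b

/-- negative of a polynomial -/
def pneg : List ℤ → List ℤ
  | [] => []
  | x :: a => (-x) :: pneg a

/-- value of a polynomial -/
def ev (q : ℂ) : List ℤ → ℂ
  | [] => 0
  | x :: a => x + q * ev q a

theorem ev_padd (q : ℂ) : ∀ a b : List ℤ, ev q (padd a b) = ev q a + ev q b
  | [], b => by simp [padd, ev]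
  | x :: a, [] => by simp [padd, ev]
  | x :: a, y :: b => by
    rw [padd, ev, ev, ev, ev_padd q a b]
    push_cast
    ring

theorem ev_pneg (q : ℂ) : ∀ a : List ℤ, ev q (pneg a) = -ev q a
  | [] => by simp [pneg, ev]
  | x :: a => by
    rw [pneg, ev, ev, ev_pneg q a]
    push_cast
    ring

theorem ev_X (q : ℂ) (a : List ℤ) : ev q (0 :: a) = q * ev q a := by
  rw [ev]; push_cast; ring

theorem ev_zero (q : ℂ) : ∀ a : List ℤ, (∀ x ∈ a, x = 0) → ev q a = 0
  | [], _ => by rw [ev]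
  | x :: a, h => by
    rw [ev, ev_zero q a fun y hy => h y (List.mem_cons_of_mem _ hy), h x List.mem_cons_self]
    push_cast
    ring

/-- four coordinates -/
abbrev V4 (α : Type) := α × α × α × α

/-- a letter on four coordinates -/
def av (q : ℂ) : ℕ × Bool → V4 ℂ → V4 ℂ
  | (0, true), (a, b, c, d) => (-a + q * b, q * b, q * c, q * d)
  | (1, true), (a, b, c, d) => (q * a, -b + q * c + a, q * c, q * d)
  | (2, true), (a, b, c, d) => (q * a, q * b, -c + q * d + b, q * d)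
  | (3, true), (a, b, c, d) => (q * a, q * b, q * c, -d + c)
  | (0, false), (a, b, c, d) => (-(q * a) + q * b, b, c, d)
  | (1, false), (a, b, c, d) => (a, -(q * b) + q * c + a, c, d)
  | (2, false), (a, b, c, d) => (a, b, -(q * c) + q * d + b, d)
  | (3, false), (a, b, c, d) => (a, b, c, -(q * d) + c)
  | _, s => s

/-- a letter on four coordinates, for lists -/
def avL : ℕ × Bool → V4 (List ℤ) → V4 (List ℤ)
  | (0, true), (a, b, c, d) => (padd (pneg a) (0 :: b), 0 :: b, 0 :: c, 0 :: d)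
  | (1, true), (a, b, c, d) => (0 :: a, padd (padd (pneg b) (0 :: c)) a, 0 :: c, 0 :: d)
  | (2, true), (a, b, c, d) => (0 :: a, 0 :: b, padd (padd (pneg c) (0 :: d)) b, 0 :: d)
  | (3, true), (a, b, c, d) => (0 :: a, 0 :: b, 0 :: c, padd (pneg d) c)
  | (0, false), (a, b, c, d) => (padd (pneg (0 :: a)) (0 :: b), b, c, d)
  | (1, false), (a, b, c, d) => (a, padd (padd (pneg (0 :: b)) (0 :: c)) a, c, d)
  | (2, false), (a, b, c, d) => (a, b, padd (padd (pneg (0 :: c)) (0 :: d)) b, d)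
  | (3, false), (a, b, c, d) => (a, b, c, padd (pneg (0 :: d)) c)
  | _, s => s

/-- values of the coordinates -/
def ev4 (q : ℂ) (c : V4 (List ℤ)) : V4 ℂ := (ev q c.1, ev q c.2.1, ev q c.2.2.1, ev q c.2.2.2)

theorem ev4_avL (q : ℂ) (p : ℕ × Bool) (hp : p.1 < 4) (c : V4 (List ℤ)) :
    ev4 q (avL p c) = av q p (ev4 q c) := by
  obtain ⟨i, b⟩ := p
  obtain ⟨x, y, z, t⟩ := c
  have hi : i = 0 ∨ i = 1 ∨ i = 2 ∨ i = 3 := by simp at hp; omega
  cases b
  · rcases hi with rfl | rfl | rfl | rfl <;> simp only [ev4, avL, av, ev_padd, ev_pneg, ev_X]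
  · rcases hi with rfl | rfl | rfl | rfl <;> simp only [ev4, avL, av, ev_padd, ev_pneg, ev_X]

theorem ev4_foldr (q : ℂ) (L : List (ℕ × Bool)) (hL : ∀ p ∈ L, p.1 < 4) (c : V4 (List ℤ)) :
    ev4 q (L.foldr avL c) = L.foldr (av q) (ev4 q c) := by
  induction L with
  | nil => rfl
  | cons p L ih =>
    rw [List.foldr_cons, List.foldr_cons, ev4_avL q p (hL p List.mem_cons_self),
      ih fun r hr => hL r (List.mem_cons_of_mem _ hr)]

theorem gL_lt : ∀ p ∈ gL, p.1 < 4 := by decide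

theorem FL_lt : ∀ p ∈ FL, p.1 < 4 := by decide

/-- the word with inverted letters in the same order -/
def gI : List (ℕ × Bool) := (invL gL).reverse

theorem gI_lt : ∀ p ∈ gI, p.1 < 4 := by decide

theorem g_check : ∀ x ∈ (gL.foldr avL ([], [], [], [1])).2.2.2, x = 0 := by decide +kernel

theorem gI_check : ∀ x ∈ (gI.foldr avL ([], [], [], [1])).2.2.2, x = 0 := by decide +kernel

theorem ev4_unit (q : ℂ) : ev4 q ([], [], [], [1]) = (0, 0, 0, 1) := by
  simp [ev4, ev]

theorem g_last (q : ℂ) : (gL.foldr (av q) (0, 0, 0, 1)).2.2.2 = 0 := by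
  rw [← ev4_unit q, ← ev4_foldr q gL gL_lt]
  exact ev_zero q _ g_check

theorem gI_last (q : ℂ) : (gI.foldr (av q) (0, 0, 0, 1)).2.2.2 = 0 := by
  rw [← ev4_unit q, ← ev4_foldr q gI gI_lt]
  exact ev_zero q _ gI_check

theorem F_col (q a b c : ℂ) : FL.foldr (av q) (a, b, c, 0) = (q ^ 7 * a, q ^ 7 * b, q ^ 7 * c, 0) := by
  simp only [FL, List.foldr_cons, List.foldr_nil, av, Prod.mk.injEq]
  refine ⟨?_, ?_, ?_, ?_⟩ <;> ring

/-! ### The action on columns and rows -/

section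
variable {T : Type} [Ring T] [Algebra ℂ T]

/-- the columns -/
def col (A : ℂ) (e : ℕ → T) (c : V4 ℂ) : T :=
  c.1 • e 0 + c.2.1 • (A ^ 2 • (e 1 * e 0)) + c.2.2.1 • (A ^ 4 • (e 2 * e 1 * e 0)) +
    c.2.2.2 • (A ^ 6 • (e 3 * e 2 * e 1 * e 0))

/-- the rows -/
def row (A : ℂ) (e : ℕ → T) (c : V4 ℂ) : T :=
  c.1 • e 0 + c.2.1 • (A ^ 2 • (e 0 * e 1)) + c.2.2.1 • (A ^ 4 • (e 0 * e 1 * e 2)) +
    c.2.2.2 • (A ^ 6 • (e 0 * e 1 * e 2 * e 3))

/-- the normalised letters: `q + f` and `1 + f`, `f = A² e` -/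
def lt (A : ℂ) (e : ℕ → T) (p : ℕ × Bool) : T :=
  (if p.2 then algebraMap ℂ T (A ^ 4) else 1) + A ^ 2 • e p.1

/-- membership of the non-adjacent products -/
theorem jj {e : ℕ → T} {i j : ℕ} (h : i + 1 < j) (hj : j < 4) : e i * e j ∈ J e 2 4 := by
  apply J_of
  exact ⟨j, hj, e i, ⟨i, by omega, 1, rfl, by rw [one_mul]⟩, rfl⟩

theorem col_zero {τ A : ℂ} {N : ℕ} {e : ℕ → T} (h : TLS τ N e) (hN : 4 ≤ N) (hA : A ≠ 0)
    (hτ : τ = -A ^ 2 - A⁻¹ ^ 2) (x y z t : ℂ) :
    A ^ 2 • (e 0 * col A e (x, y, z, t)) - (-(1 + A ^ 4) * x + A ^ 4 * y) • e 0 ∈ J e 2 4 := by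
  have s := h.sq 0 (by omega)
  have r : e 0 * (e 1 * e 0) = e 0 := by rw [← mul_assoc]; exact h.up 0 (by omega)
  have j1 : e 0 * (e 2 * e 1 * e 0) ∈ J e 2 4 := by
    have : e 0 * (e 2 * e 1 * e 0) = e 0 * e 2 * (e 1 * e 0) := by noncomm_ring
    rw [this]
    exact J_right e (mul_mem (e_mem e (by omega)) (e_mem e (by omega))) (jj (by omega) (by omega))
  have j2 : e 0 * (e 3 * e 2 * e 1 * e 0) ∈ J e 2 4 := by
    have : e 0 * (e 3 * e 2 * e 1 * e 0) = e 0 * e 3 * (e 2 * e 1 * e 0) := by noncomm_ring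
    rw [this]
    exact J_right e (mul_mem (mul_mem (e_mem e (by omega)) (e_mem e (by omega)))
      (e_mem e (by omega))) (jj (by omega) (by omega))
  have key : A ^ 2 • (e 0 * col A e (x, y, z, t)) - (-(1 + A ^ 4) * x + A ^ 4 * y) • e 0 =
      (A ^ 6 * z) • (e 0 * (e 2 * e 1 * e 0)) + (A ^ 8 * t) • (e 0 * (e 3 * e 2 * e 1 * e 0)) := by
    unfold col
    simp only [mul_add, mul_smul_comm, s, r, hτ]
    match_scalars <;> field_simp <;> ring
  rw [key]
  exact add_mem (Submodule.smul_mem _ _ j1) (Submodule.smul_mem _ _ j2)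

theorem col_one {τ A : ℂ} {N : ℕ} {e : ℕ → T} (h : TLS τ N e) (hN : 4 ≤ N) (hA : A ≠ 0)
    (hτ : τ = -A ^ 2 - A⁻¹ ^ 2) (x y z t : ℂ) :
    A ^ 2 • (e 1 * col A e (x, y, z, t)) - (x - (1 + A ^ 4) * y + A ^ 4 * z) •
      (A ^ 2 • (e 1 * e 0)) ∈ J e 2 4 := by
  have s : e 1 * (e 1 * e 0) = τ • (e 1 * e 0) := by
    rw [← mul_assoc, h.sq 1 (by omega), smul_mul_assoc]
  have r : e 1 * (e 2 * e 1 * e 0) = e 1 * e 0 := by
    have : e 1 * (e 2 * e 1 * e 0) = e 1 * e 2 * e 1 * e 0 := by noncomm_ring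
    rw [this, h.up 1 (by omega)]
  have j1 : e 1 * (e 3 * e 2 * e 1 * e 0) ∈ J e 2 4 := by
    have : e 1 * (e 3 * e 2 * e 1 * e 0) = e 1 * e 3 * (e 2 * e 1 * e 0) := by noncomm_ring
    rw [this]
    exact J_right e (mul_mem (mul_mem (e_mem e (by omega)) (e_mem e (by omega)))
      (e_mem e (by omega))) (jj (by omega) (by omega))
  have key : A ^ 2 • (e 1 * col A e (x, y, z, t)) - (x - (1 + A ^ 4) * y + A ^ 4 * z) •
      (A ^ 2 • (e 1 * e 0)) = (A ^ 8 * t) • (e 1 * (e 3 * e 2 * e 1 * e 0)) := by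
    unfold col
    simp only [mul_add, mul_smul_comm, s, r, hτ]
    match_scalars <;> field_simp <;> ring
  rw [key]
  exact Submodule.smul_mem _ _ j1

theorem col_two {τ A : ℂ} {N : ℕ} {e : ℕ → T} (h : TLS τ N e) (hN : 4 ≤ N) (hA : A ≠ 0)
    (hτ : τ = -A ^ 2 - A⁻¹ ^ 2) (x y z t : ℂ) :
    A ^ 2 • (e 2 * col A e (x, y, z, t)) - (y - (1 + A ^ 4) * z + A ^ 4 * t) •
      (A ^ 4 • (e 2 * e 1 * e 0)) ∈ J e 2 4 := by
  have s : e 2 * (e 2 * e 1 * e 0) = τ • (e 2 * e 1 * e 0) := by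
    have : e 2 * (e 2 * e 1 * e 0) = e 2 * e 2 * (e 1 * e 0) := by noncomm_ring
    rw [this, h.sq 2 (by omega), smul_mul_assoc]
    congr 1
    noncomm_ring
  have r : e 2 * (e 3 * e 2 * e 1 * e 0) = e 2 * e 1 * e 0 := by
    have : e 2 * (e 3 * e 2 * e 1 * e 0) = e 2 * e 3 * e 2 * e 1 * e 0 := by noncomm_ring
    rw [this, h.up 2 (by omega)]
  have r1 : e 2 * (e 1 * e 0) = e 2 * e 1 * e 0 := by noncomm_ring
  have j1 : e 2 * e 0 ∈ J e 2 4 := by
    rw [← h.comm 0 2 (by omega) (by omega)]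
    exact jj (by omega) (by omega)
  have key : A ^ 2 • (e 2 * col A e (x, y, z, t)) - (y - (1 + A ^ 4) * z + A ^ 4 * t) •
      (A ^ 4 • (e 2 * e 1 * e 0)) = (A ^ 2 * x) • (e 2 * e 0) := by
    unfold col
    simp only [mul_add, mul_smul_comm, s, r, r1, hτ]
    match_scalars <;> field_simp <;> ring
  rw [key]
  exact Submodule.smul_mem _ _ j1

theorem col_three {τ A : ℂ} {N : ℕ} {e : ℕ → T} (h : TLS τ N e) (hN : 4 ≤ N) (hA : A ≠ 0)
    (hτ : τ = -A ^ 2 - A⁻¹ ^ 2) (x y z t : ℂ) :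
    A ^ 2 • (e 3 * col A e (x, y, z, t)) - (z - (1 + A ^ 4) * t) •
      (A ^ 6 • (e 3 * e 2 * e 1 * e 0)) ∈ J e 2 4 := by
  have s : e 3 * (e 3 * e 2 * e 1 * e 0) = τ • (e 3 * e 2 * e 1 * e 0) := by
    have : e 3 * (e 3 * e 2 * e 1 * e 0) = e 3 * e 3 * (e 2 * e 1 * e 0) := by noncomm_ring
    rw [this, h.sq 3 (by omega), smul_mul_assoc]
    congr 1
    noncomm_ring
  have r1 : e 3 * (e 2 * e 1 * e 0) = e 3 * e 2 * e 1 * e 0 := by noncomm_ring
  have j1 : e 3 * e 0 ∈ J e 2 4 := by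
    rw [← h.comm 0 3 (by omega) (by omega)]
    exact jj (by omega) (by omega)
  have j2 : e 3 * (e 1 * e 0) ∈ J e 2 4 := by
    rw [← mul_assoc, ← h.comm 1 3 (by omega) (by omega)]
    exact J_right e (e_mem e (by omega)) (jj (by omega) (by omega))
  have key : A ^ 2 • (e 3 * col A e (x, y, z, t)) - (z - (1 + A ^ 4) * t) •
      (A ^ 6 • (e 3 * e 2 * e 1 * e 0)) = (A ^ 2 * x) • (e 3 * e 0) +
        (A ^ 4 * y) • (e 3 * (e 1 * e 0)) := by
    unfold col
    simp only [mul_add, mul_smul_comm, s, r1, hτ]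
    match_scalars <;> field_simp <;> ring
  rw [key]
  exact add_mem (Submodule.smul_mem _ _ j1) (Submodule.smul_mem _ _ j2)

theorem col_step {τ A : ℂ} {N : ℕ} {e : ℕ → T} (h : TLS τ N e) (hN : 4 ≤ N) (hA : A ≠ 0)
    (hτ : τ = -A ^ 2 - A⁻¹ ^ 2) (p : ℕ × Bool) (hp : p.1 < 4) (c : V4 ℂ) :
    lt A e p * col A e c - col A e (av (A ^ 4) p c) ∈ J e 2 4 := by
  obtain ⟨i, b⟩ := p
  obtain ⟨x, y, z, t⟩ := c
  have hi : i = 0 ∨ i = 1 ∨ i = 2 ∨ i = 3 := by simp at hp; omega
  have h0 := col_zero h hN hA hτ x y z t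
  have h1 := col_one h hN hA hτ x y z t
  have h2 := col_two h hN hA hτ x y z t
  have h3 := col_three h hN hA hτ x y z t
  cases b <;> rcases hi with rfl | rfl | rfl | rfl
  · have : lt A e (0, false) * col A e (x, y, z, t) -
        col A e (av (A ^ 4) (0, false) (x, y, z, t)) =
        A ^ 2 • (e 0 * col A e (x, y, z, t)) - (-(1 + A ^ 4) * x + A ^ 4 * y) • e 0 := by
      simp only [lt, av, Bool.false_eq_true, if_false, add_mul, one_mul, smul_mul_assoc]
      simp only [col]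
      module
    rw [this]; exact h0
  · have : lt A e (1, false) * col A e (x, y, z, t) -
        col A e (av (A ^ 4) (1, false) (x, y, z, t)) =
        A ^ 2 • (e 1 * col A e (x, y, z, t)) - (x - (1 + A ^ 4) * y + A ^ 4 * z) •
      (A ^ 2 • (e 1 * e 0)) := by
      simp only [lt, av, Bool.false_eq_true, if_false, add_mul, one_mul, smul_mul_assoc]
      simp only [col]
      module
    rw [this]; exact h1
  · have : lt A e (2, false) * col A e (x, y, z, t) -
        col A e (av (A ^ 4) (2, false) (x, y, z, t)) =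
        A ^ 2 • (e 2 * col A e (x, y, z, t)) - (y - (1 + A ^ 4) * z + A ^ 4 * t) •
      (A ^ 4 • (e 2 * e 1 * e 0)) := by
      simp only [lt, av, Bool.false_eq_true, if_false, add_mul, one_mul, smul_mul_assoc]
      simp only [col]
      module
    rw [this]; exact h2
  · have : lt A e (3, false) * col A e (x, y, z, t) -
        col A e (av (A ^ 4) (3, false) (x, y, z, t)) =
        A ^ 2 • (e 3 * col A e (x, y, z, t)) - (z - (1 + A ^ 4) * t) •
      (A ^ 6 • (e 3 * e 2 * e 1 * e 0)) := by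
      simp only [lt, av, Bool.false_eq_true, if_false, add_mul, one_mul, smul_mul_assoc]
      simp only [col]
      module
    rw [this]; exact h3
  · have : lt A e (0, true) * col A e (x, y, z, t) -
        col A e (av (A ^ 4) (0, true) (x, y, z, t)) =
        A ^ 2 • (e 0 * col A e (x, y, z, t)) - (-(1 + A ^ 4) * x + A ^ 4 * y) • e 0 := by
      simp only [lt, av, if_true, add_mul, smul_mul_assoc, ← Algebra.smul_def]
      simp only [col]
      module
    rw [this]; exact h0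
  · have : lt A e (1, true) * col A e (x, y, z, t) -
        col A e (av (A ^ 4) (1, true) (x, y, z, t)) =
        A ^ 2 • (e 1 * col A e (x, y, z, t)) - (x - (1 + A ^ 4) * y + A ^ 4 * z) •
      (A ^ 2 • (e 1 * e 0)) := by
      simp only [lt, av, if_true, add_mul, smul_mul_assoc, ← Algebra.smul_def]
      simp only [col]
      module
    rw [this]; exact h1
  · have : lt A e (2, true) * col A e (x, y, z, t) -
        col A e (av (A ^ 4) (2, true) (x, y, z, t)) =
        A ^ 2 • (e 2 * col A e (x, y, z, t)) - (y - (1 + A ^ 4) * z + A ^ 4 * t) •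
      (A ^ 4 • (e 2 * e 1 * e 0)) := by
      simp only [lt, av, if_true, add_mul, smul_mul_assoc, ← Algebra.smul_def]
      simp only [col]
      module
    rw [this]; exact h2
  · have : lt A e (3, true) * col A e (x, y, z, t) -
        col A e (av (A ^ 4) (3, true) (x, y, z, t)) =
        A ^ 2 • (e 3 * col A e (x, y, z, t)) - (z - (1 + A ^ 4) * t) •
      (A ^ 6 • (e 3 * e 2 * e 1 * e 0)) := by
      simp only [lt, av, if_true, add_mul, smul_mul_assoc, ← Algebra.smul_def]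
      simp only [col]
      module
    rw [this]; exact h3

end

end Pool.Agent.TLU
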