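import Mathlib

set_option autoImplicit false

/-!
# Definitions for MP_3e2c45_gt

The braid group `Braid n`, the Temperley-Lieb algebra `TL n τ` (both as in the frozen statements), the
diagrammatic modules: `PM n`, `join`, `opr`, `Planar`, `V n j`.
-/

namespace Pool.Agent.TLU

/-! ### Braid groups and Temperley-Lieb algebras -/

/-- the relators of the braid group on `n` strands -/
def brel (n : ℕ) : Set (FreeGroup (Fin (n - 1))) :=
  {w | ∃ i j : Fin (n - 1),
      ((i : ℕ) + 1 < (j : ℕ) ∧
        w = FreeGroup.of i * FreeGroup.of j * (FreeGroup.of j * FreeGroup.of i)⁻¹) ∨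
      ((i : ℕ) + 1 = (j : ℕ) ∧
        w = FreeGroup.of i * FreeGroup.of j * FreeGroup.of i *
          (FreeGroup.of j * FreeGroup.of i * FreeGroup.of j)⁻¹)}

/-- the braid group on `n` strands -/
abbrev Braid (n : ℕ) : Type := PresentedGroup (brel n)

/-- the relations of the Temperley-Lieb algebra on `n` strands with loop value `τ` -/
def trel (n : ℕ) (τ : ℂ) : FreeAlgebra ℂ (Fin (n - 1)) → FreeAlgebra ℂ (Fin (n - 1)) → Prop :=
  fun x y => ∃ i j : Fin (n - 1),
      ((i : ℕ) + 1 < (j : ℕ) ∧
        x = FreeAlgebra.ι ℂ i * FreeAlgebra.ι ℂ j ∧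
        y = FreeAlgebra.ι ℂ j * FreeAlgebra.ι ℂ i) ∨
      (((i : ℕ) + 1 = (j : ℕ) ∨ (j : ℕ) + 1 = (i : ℕ)) ∧
        x = FreeAlgebra.ι ℂ i * FreeAlgebra.ι ℂ j * FreeAlgebra.ι ℂ i ∧
        y = FreeAlgebra.ι ℂ i) ∨
      (i = j ∧
        x = FreeAlgebra.ι ℂ i * FreeAlgebra.ι ℂ i ∧
        y = τ • FreeAlgebra.ι ℂ i)

/-- the Temperley-Lieb algebra on `n` strands with loop value `τ` -/
abbrev TL (n : ℕ) (τ : ℂ) : Type := RingQuot (trel n τ)

/-- the generators of the Temperley-Lieb algebra -/
noncomputable def gen (n : ℕ) (τ : ℂ) (i : Fin (n - 1)) : TL n τ :=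
  RingQuot.mkAlgHom ℂ (trel n τ) (FreeAlgebra.ι ℂ i)

/-- the loop value of the parameter `A` -/
noncomputable def loopv (A : ℂ) : ℂ := -A ^ 2 - A⁻¹ ^ 2

/-! ### Partial matchings -/

section
variable {α : Type} [DecidableEq α]

/-- join `a` and `b`, and their former partners (if one of `a`, `b` was unmatched, the partner of the other becomes
unmatched); a partial matching is an involution, its fixed points are the unmatched points -/
def join (a b : α) (f : α → α) : α → α := fun x =>
  if x = a then b else if x = b then a else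
    if f x = a then (if f b = b then x else f b) else
      if f x = b then (if f a = a then x else f a) else f x

/-- the coefficient: `τ` if `a`, `b` were joined already (a loop is closed), `0` if both were unmatched (two through
strands are joined), `1` otherwise -/
noncomputable def cf (τ : ℂ) (a b : α) (f : α → α) : ℂ :=
  if f a = b then τ else if f a = a ∧ f b = b then 0 else 1

theorem join_inv {a b : α} (hab : a ≠ b) {f : α → α} (hf : ∀ x, f (f x) = x) (x : α) :
    join a b f (join a b f x) = x := by
  have ha := hf a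
  have hb := hf b
  have hx := hf x
  unfold join
  grind

end

/-- partial matchings of `n` points: involutions; the fixed points are the unmatched points -/
def PM (n : ℕ) : Type := {f : Fin n → Fin n // ∀ x, f (f x) = x}

variable {n : ℕ}

/-- joining the points `i` and `i + 1` of a partial matching -/
def jn (i : ℕ) (f : PM n) : PM n :=
  if h : i + 1 < n then
    ⟨join ⟨i, by omega⟩ ⟨i + 1, h⟩ f.1, join_inv (by simp [Fin.ext_iff]) f.2⟩
  else f

/-- the coefficient of the generator `e i` at a partial matching -/
noncomputable def co (τ : ℂ) (i : ℕ) (f : PM n) : ℂ :=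
  if h : i + 1 < n then cf τ ⟨i, by omega⟩ ⟨i + 1, h⟩ f.1 else 0

/-- the operator of the generator `e i` on the space with basis `PM n`: it joins the points `i`, `i + 1` -/
noncomputable def opr (τ : ℂ) (i : ℕ) : Module.End ℂ (PM n →₀ ℂ) :=
  Finsupp.linearCombination ℂ (fun f => Finsupp.single (jn i f) (co τ i f))

/-- planarity: the points under an arc are matched among themselves -/
def Planar (f : PM n) : Prop :=
  ∀ a b : Fin n, a < b → b < f.1 a → f.1 b ≠ b ∧ a < f.1 b ∧ f.1 b < f.1 a

/-- the span of the planar partial matchings of `n` points with `j` arcs (`2 j` matched points) -/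
noncomputable def V (n j : ℕ) : Submodule ℂ (PM n →₀ ℂ) :=
  Submodule.span ℂ {v | ∃ f : PM n, Planar f ∧
    (Finset.univ.filter (fun x => f.1 x ≠ x)).card = 2 * j ∧ v = Finsupp.single f 1}

end Pool.Agent.TLU
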