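import Pool.Agent.TLU.Word

set_option autoImplicit false

/-!
# The elements are not trivial

The Hurwitz action of braids on sequences of transpositions in `S_4`. `op` is the conjugation of the six
transpositions `(01), (02), (03), (12), (13), (23)`.
-/

namespace Pool.Agent.TLU

/-- the table of the conjugation of transpositions -/
def opT : List (List (Fin 6)) :=
  [[0, 3, 4, 1, 2, 5], [3, 1, 5, 0, 4, 2], [4, 5, 2, 3, 0, 1], [1, 0, 2, 3, 5, 4],
   [2, 1, 0, 5, 4, 3], [0, 2, 1, 4, 3, 5]]

/-- conjugation of transpositions -/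
def op (a b : Fin 6) : Fin 6 := (opT.getD a []).getD b 0

theorem op_op : ∀ a b : Fin 6, op a (op a b) = b := by decide

theorem op_dist : ∀ a b c : Fin 6, op a (op b c) = op (op a b) (op a c) := by decide

/-- the action of a generator -/
def fwd (i : ℕ) (x : ℕ → Fin 6) : ℕ → Fin 6 :=
  fun j => if j = i then op (x i) (x (i + 1)) else if j = i + 1 then x i else x j

/-- the action of the inverse -/
def bwd (i : ℕ) (x : ℕ → Fin 6) : ℕ → Fin 6 :=
  fun j => if j = i then x (i + 1) else if j = i + 1 then op (x (i + 1)) (x i) else x j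

theorem bwd_fwd (i : ℕ) (x : ℕ → Fin 6) : bwd i (fwd i x) = x := by
  funext j
  unfold bwd fwd
  by_cases h1 : j = i
  · subst h1; simp
  · by_cases h2 : j = i + 1
    · subst h2; simp [op_op]
    · simp [h1, h2]

theorem fwd_bwd (i : ℕ) (x : ℕ → Fin 6) : fwd i (bwd i x) = x := by
  funext j
  unfold bwd fwd
  by_cases h1 : j = i
  · subst h1; simp [op_op]
  · by_cases h2 : j = i + 1
    · subst h2; simp
    · simp [h1, h2]

/-- the action of a generator as a permutation -/
def hs (i : ℕ) : Equiv.Perm (ℕ → Fin 6) where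
  toFun := fwd i
  invFun := bwd i
  left_inv := bwd_fwd i
  right_inv := fwd_bwd i

theorem hs_comm {i j : ℕ} (h : i + 1 < j) : hs i * hs j = hs j * hs i := by
  ext1 x
  show fwd i (fwd j x) = fwd j (fwd i x)
  funext k
  have e1 : ¬ i = j := by omega
  have e2 : ¬ j = i := by omega
  have e3 : ¬ i = j + 1 := by omega
  have e4 : ¬ i + 1 = j := by omega
  have e5 : ¬ j = i + 1 := by omega
  have e6 : ¬ j + 1 = i := by omega
  unfold fwd
  by_cases h1 : k = i
  · subst h1; simp [e1, e3, e4]
  · by_cases h2 : k = i + 1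
    · subst h2; simp [e1, e3, e4]
    · simp [h1, h2, e2, e5, e6]

theorem hs_braid (i : ℕ) : hs i * hs (i + 1) * hs i = hs (i + 1) * hs i * hs (i + 1) := by
  ext1 x
  show fwd i (fwd (i + 1) (fwd i x)) = fwd (i + 1) (fwd i (fwd (i + 1) x))
  have e1 : ¬ i = i + 1 + 1 := by omega
  have e2 : ¬ i + 1 + 1 = i := by omega
  funext k
  unfold fwd
  by_cases h1 : k = i
  · subst h1
    simp only [if_true, if_neg (Nat.ne_of_lt (Nat.lt_succ_self k)),
      if_neg (Nat.ne_of_gt (Nat.lt_succ_self k)), e1, e2, if_false,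
      if_neg (Nat.ne_of_gt (Nat.lt_succ_self (k + 1)))]
    exact (op_dist _ _ _).symm
  · by_cases h2 : k = i + 1
    · subst h2; simp [e1, e2]
    · by_cases h3 : k = i + 1 + 1
      · subst h3; simp [e1, e2]
      · simp [h1, h2, h3]

/-- the action of the free group -/
def th : FreeGroup ℕ →* Equiv.Perm (ℕ → Fin 6) := FreeGroup.lift hs

theorem th_of (i : ℕ) (x : ℕ → Fin 6) : th (FreeGroup.of i) x = fwd i x := by
  unfold th; rw [FreeGroup.lift_apply_of]; rfl

theorem th_inv (i : ℕ) (x : ℕ → Fin 6) : th (FreeGroup.of i)⁻¹ x = bwd i x := by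
  unfold th; rw [map_inv, FreeGroup.lift_apply_of]; rfl

theorem th_mul (g h : FreeGroup ℕ) (x : ℕ → Fin 6) : th (g * h) x = th g (th h x) := by
  rw [map_mul]; rfl

/-- letters `< m` do not move the positions `> m` -/
theorem th_above {m : ℕ} {g : FreeGroup ℕ} (hg : g ∈ C m) :
    ∀ (x : ℕ → Fin 6) (j : ℕ), m < j → th g x j = x j := by
  induction hg using Subgroup.closure_induction with
  | mem g hg =>
    obtain ⟨i, hi, rfl⟩ := hg
    have hi' : i < m := hi
    intro x j hj
    rw [th_of]
    unfold fwd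
    rw [if_neg (by omega), if_neg (by omega)]
  | one => intro x j hj; rw [map_one]; rfl
  | mul g h _ _ hg hh => intro x j hj; rw [th_mul, hg _ j hj, hh _ j hj]
  | inv g _ hg =>
    intro x j hj
    have h1 := hg (th g⁻¹ x) j hj
    rw [← th_mul, mul_inv_cancel, map_one] at h1
    exact h1.symm

/-- the positions `≤ m` after the action of letters `< m` depend only on the positions `≤ m` -/
theorem th_local {m : ℕ} {g : FreeGroup ℕ} (hg : g ∈ C m) :
    ∀ (x y : ℕ → Fin 6), (∀ j, j ≤ m → x j = y j) → ∀ j, j ≤ m → th g x j = th g y j := by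
  have h0 : ∀ i, i < m → ∀ (x y : ℕ → Fin 6), (∀ j, j ≤ m → x j = y j) →
      ∀ j, j ≤ m → fwd i x j = fwd i y j := by
    intro i hi x y h j hj
    unfold fwd
    rw [h i (by omega), h (i + 1) (by omega), h j hj]
  have h0' : ∀ i, i < m → ∀ (x y : ℕ → Fin 6), (∀ j, j ≤ m → x j = y j) →
      ∀ j, j ≤ m → bwd i x j = bwd i y j := by
    intro i hi x y h j hj
    unfold bwd
    rw [h i (by omega), h (i + 1) (by omega), h j hj]
  have h1 : ∀ g ∈ C m, (∀ (x y : ℕ → Fin 6), (∀ j, j ≤ m → x j = y j) →
      ∀ j, j ≤ m → th g x j = th g y j) ∧ (∀ (x y : ℕ → Fin 6), (∀ j, j ≤ m → x j = y j) →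
      ∀ j, j ≤ m → th g⁻¹ x j = th g⁻¹ y j) := by
    intro g hg
    induction hg using Subgroup.closure_induction with
    | mem g hg =>
      obtain ⟨i, hi, rfl⟩ := hg
      refine ⟨?_, ?_⟩
      · intro x y h j hj; rw [th_of, th_of]; exact h0 i hi x y h j hj
      · intro x y h j hj; rw [th_inv, th_inv]; exact h0' i hi x y h j hj
    | one =>
      refine ⟨?_, ?_⟩
      · intro x y h j hj; rw [map_one]; exact h j hj
      · intro x y h j hj; rw [inv_one, map_one]; exact h j hj
    | mul g h _ _ hg hh =>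
      refine ⟨?_, ?_⟩
      · intro x y e j hj; rw [th_mul, th_mul]; exact hg.1 _ _ (hh.1 _ _ e) j hj
      · intro x y e j hj; rw [mul_inv_rev, th_mul, th_mul]; exact hh.2 _ _ (hg.2 _ _ e) j hj
    | inv g _ hg => exact ⟨hg.2, by rw [inv_inv]; exact hg.1⟩
  exact (h1 g hg).1

/-- the action of a shifted word -/
theorem th_shift (p : ℕ) (g : FreeGroup ℕ) (x : ℕ → Fin 6) :
    (∀ j, th (sh p g) x (p + j) = th g (fun i => x (p + i)) j) ∧
      ∀ j, j < p → th (sh p g) x j = x j := by
  induction g using FreeGroup.induction_on generalizing x with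
  | C1 => exact ⟨fun j => by rw [map_one, map_one]; rfl,
      fun j _ => by rw [map_one, map_one]; rfl⟩
  | of i =>
    have h1 : sh p (FreeGroup.of i) = FreeGroup.of (p + i) := by simp [sh]
    refine ⟨fun j => ?_, fun j hj => ?_⟩
    · rw [h1, th_of, th_of]
      unfold fwd
      by_cases h3 : j = i
      · subst h3; simp [add_assoc]
      · by_cases h4 : j = i + 1
        · subst h4; simp [add_assoc]
        · have h6 : ¬ p + j = p + i + 1 := by omega
          simp [h3, h4, h6]
    · rw [h1, th_of]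
      unfold fwd
      rw [if_neg (by omega), if_neg (by omega)]
  | inv_of i _ =>
    have h1 : sh p (FreeGroup.of i)⁻¹ = (FreeGroup.of (p + i))⁻¹ := by simp [sh]
    refine ⟨fun j => ?_, fun j hj => ?_⟩
    · rw [h1, th_inv, th_inv]
      unfold bwd
      by_cases h3 : j = i
      · subst h3; simp [add_assoc]
      · by_cases h4 : j = i + 1
        · subst h4; simp [add_assoc]
        · have h6 : ¬ p + j = p + i + 1 := by omega
          simp [h3, h4, h6]
    · rw [h1, th_inv]
      unfold bwd
      rw [if_neg (by omega), if_neg (by omega)]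
  | mul g h ihg ihh =>
    refine ⟨fun j => ?_, fun j hj => ?_⟩
    · have e : (fun i => th (sh p h) x (p + i)) = th h (fun i => x (p + i)) :=
        funext (ihh x).1
      rw [map_mul, th_mul, th_mul, (ihg _).1 j, e]
    · rw [map_mul, th_mul, (ihg _).2 j hj, (ihh x).2 j hj]

/-- states of five positions -/
abbrev St := Fin 6 × Fin 6 × Fin 6 × Fin 6 × Fin 6

/-- the first five positions -/
def vw (x : ℕ → Fin 6) : St := (x 0, x 1, x 2, x 3, x 4)

/-- one letter -/
def stp : ℕ × Bool → St → St
  | (0, true), (a, b, c, d, f) => (op a b, a, c, d, f)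
  | (1, true), (a, b, c, d, f) => (a, op b c, b, d, f)
  | (2, true), (a, b, c, d, f) => (a, b, op c d, c, f)
  | (3, true), (a, b, c, d, f) => (a, b, c, op d f, d)
  | (0, false), (a, b, c, d, f) => (b, op b a, c, d, f)
  | (1, false), (a, b, c, d, f) => (a, c, op c b, d, f)
  | (2, false), (a, b, c, d, f) => (a, b, d, op d c, f)
  | (3, false), (a, b, c, d, f) => (a, b, c, f, op f d)
  | _, s => s

theorem stp_spec (p : ℕ × Bool) (hp : p.1 < 4) (x : ℕ → Fin 6) :
    vw (th (if p.2 then FreeGroup.of p.1 else (FreeGroup.of p.1)⁻¹) x) = stp p (vw x) := by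
  obtain ⟨i, b⟩ := p
  have hi : i = 0 ∨ i = 1 ∨ i = 2 ∨ i = 3 := by simp at hp; omega
  cases b
  · simp only [Bool.false_eq_true, if_false, th_inv]
    rcases hi with rfl | rfl | rfl | rfl <;> simp [vw, stp, bwd]
  · simp only [if_true, th_of]
    rcases hi with rfl | rfl | rfl | rfl <;> simp [vw, stp, fwd]

theorem run_spec (L : List (ℕ × Bool)) (hL : ∀ p ∈ L, p.1 < 4) (x : ℕ → Fin 6) :
    vw (th (w L) x) = L.foldr stp (vw x) := by
  induction L with
  | nil => simp [w, vw]
  | cons p L ih =>
    rw [w_cons, th_mul, stp_spec p (hL p List.mem_cons_self),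
      ih fun q hq => hL q (List.mem_cons_of_mem _ hq), List.foldr_cons]

theorem run1 : (XL.foldr stp (2, 0, 1, 1, 2)).2.2.2.2 = 3 := by decide +kernel

theorem run2 : (XL.foldr stp (3, 0, 1, 1, 2)).2.2.2.2 = 2 := by decide +kernel

theorem run3 : (XL.foldr stp (4, 0, 1, 0, 3)).2.2.2.2 = 2 := by decide +kernel

theorem W1_run (x : ℕ → Fin 6) : th W1 x 4 = (XL.foldr stp (vw x)).2.2.2.2 := by
  have h1 : th (w XL) x 4 = (vw (th (w XL) x)).2.2.2.2 := by rw [vw]
  rw [W1_eq, h1, run_spec XL XL_lt x]

attribute [local irreducible] XL W1 w W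

/-- the main statement of this file -/
theorem W_moves (k : ℕ) : ∀ y : ℕ → Fin 6, ∃ x : ℕ → Fin 6,
    (∀ j, 4 * (k + 1) < j → x j = y j) ∧ x (4 * (k + 1)) = 3 ∧
      th (W k) x (4 * (k + 1)) = 2 := by
  induction k with
  | zero =>
    intro y
    refine ⟨fun j => if j = 0 then 4 else if j = 1 then 0 else if j = 2 then 1 else
      if j = 3 then 0 else if j = 4 then 3 else y j, ?_, ?_, ?_⟩
    · intro j hj
      have h0 : ¬ j = 0 := by omega
      have h1 : ¬ j = 1 := by omega
      have h2 : ¬ j = 2 := by omega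
      have h3 : ¬ j = 3 := by omega
      have h4 : ¬ j = 4 := by omega
      simp [h0, h1, h2, h3, h4]
    · simp
    · rw [W_zero, Nat.zero_add, Nat.mul_one, W1_run]
      have : vw (fun j => if j = 0 then 4 else if j = 1 then 0 else if j = 2 then 1 else
          if j = 3 then 0 else if j = 4 then 3 else y j) = (4, 0, 1, 0, 3) := by
        simp [vw]
      rw [this]
      exact run3
  | succ k ih =>
    intro y
    set m := 4 * (k + 1) with hm
    have hm' : 4 * (k + 1 + 1) = m + 4 := by omega
    rw [hm']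
    -- the tail
    obtain ⟨x, hx1, hx2, hx3⟩ := ih (fun j => if j = m + 1 then 0 else if j = m + 2 then 1 else
      if j = m + 3 then 1 else if j = m + 4 then 2 else y j)
    have hW := W_mem k
    rw [← hm] at hW
    have t1 : x (m + 1) = 0 := by rw [hx1 _ (by omega)]; simp
    have t2 : x (m + 2) = 1 := by rw [hx1 _ (by omega)]; simp
    have t3 : x (m + 3) = 1 := by rw [hx1 _ (by omega)]; simp
    have t4 : x (m + 4) = 2 := by rw [hx1 _ (by omega)]; simp
    have hX : ∀ j, m < j → th (W k) x j = x j := fun j hj => th_above hW x j hj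
    -- the two evaluations of the shifted base element
    have hv1 : th (sh m W1) (th (W k) x) (m + 4) = 3 := by
      rw [(th_shift m W1 _).1 4, W1_run]
      have : vw (fun i => th (W k) x (m + i)) = (2, 0, 1, 1, 2) := by
        show (th (W k) x (m + 0), th (W k) x (m + 1), th (W k) x (m + 2), th (W k) x (m + 3),
          th (W k) x (m + 4)) = _
        rw [hX (m + 1) (by omega), hX (m + 2) (by omega), hX (m + 3) (by omega),
          hX (m + 4) (by omega), t1, t2, t3, t4, Nat.add_zero, hx3]
      rw [this]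
      exact run1
    have hv2 : th (sh m W1) x (m + 4) = 2 := by
      rw [(th_shift m W1 _).1 4, W1_run]
      have : vw (fun i => x (m + i)) = (3, 0, 1, 1, 2) := by
        show (x (m + 0), x (m + 1), x (m + 2), x (m + 3), x (m + 4)) = _
        rw [t1, t2, t3, t4, Nat.add_zero, hx2]
      rw [this]
      exact run2
    refine ⟨th (sh m W1) (th (W k) x), ?_, hv1, ?_⟩
    · intro j hj
      have h1 : sh m W1 ∈ C (m + 4) := sh_mem m W1_mem
      rw [th_above h1 _ j hj, hX j (by omega), hx1 j (by omega)]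
      have h2 : ¬ j = m + 1 := by omega
      have h3 : ¬ j = m + 2 := by omega
      have h4 : ¬ j = m + 3 := by omega
      have h5 : ¬ j = m + 4 := by omega
      simp [h2, h3, h4, h5]
    · rw [W_succ, ← hm]
      have h1 : th (W k * sh m W1 * (W k)⁻¹ * (sh m W1)⁻¹) (th (sh m W1) (th (W k) x)) =
          th (W k) (th (sh m W1) x) := by
        rw [← th_mul, ← th_mul, ← th_mul]
        congr 2
        group
      rw [h1, th_above hW _ _ (by omega)]
      exact hv2

theorem th_W_ne (k : ℕ) : th (W k) ≠ 1 := by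
  intro h
  obtain ⟨x, -, h1, h2⟩ := W_moves k (fun _ => 0)
  rw [h] at h2
  have h3 : x (4 * (k + 1)) = 2 := h2
  rw [h1] at h3
  exact absurd h3 (by decide)

end Pool.Agent.TLU
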