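import Pool.Agent.TLU.Defs

set_option autoImplicit false

/-!
# Joining two points of a partial matching

A partial matching of a set is an involution; its fixed points are the unmatched points (the through strands).
`join a b f`: `a` and `b` are joined to each other, and their former partners to each other.
-/

namespace Pool.Agent.TLU

variable {α : Type} [DecidableEq α]

theorem join_comm {a b c d : α} (hab : a ≠ b) (hac : a ≠ c) (had : a ≠ d) (hbc : b ≠ c)
    (hbd : b ≠ d) (hcd : c ≠ d) {f : α → α} (hf : ∀ x, f (f x) = x)
    (x : α) : join a b (join c d f) x = join c d (join a b f) x := by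
  have ha := hf a
  have hb := hf b
  have hc := hf c
  have hd := hf d
  have hx := hf x
  unfold join
  grind (splits := 60)

theorem join_left {a b : α} (f : α → α) : join a b f a = b := by
  unfold join; rw [if_pos rfl]

theorem join_right {a b : α} (hab : a ≠ b) (f : α → α) : join a b f b = a := by
  unfold join; rw [if_neg hab.symm, if_pos rfl]

theorem join_idem {a b : α} {f : α → α} (hf : ∀ x, f (f x) = x) (x : α) :
    join a b (join a b f) x = join a b f x := by
  have ha := hf a
  have hb := hf b
  have hx := hf x
  unfold join
  grind (splits := 60)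

theorem join_three {a b c : α} (hab : a ≠ b) (hac : a ≠ c) (hbc : b ≠ c) {f : α → α}
    (hf : ∀ x, f (f x) = x) (x : α) :
    join a b (join b c (join a b f)) x = join a b f x := by
  have ha := hf a
  have hb := hf b
  have hc := hf c
  have hx := hf x
  unfold join
  grind (splits := 60)

theorem join_three' {a b c : α} (hab : a ≠ b) (hac : a ≠ c) (hbc : b ≠ c) {f : α → α}
    (hf : ∀ x, f (f x) = x) (x : α) :
    join b c (join a b (join b c f)) x = join b c f x := by
  have ha := hf a
  have hb := hf b
  have hc := hf c
  have hx := hf x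
  unfold join
  grind (splits := 60)

theorem cf_join (τ : ℂ) {a b : α} (f : α → α) : cf τ a b (join a b f) = τ := by
  unfold cf; rw [join_left, if_pos rfl]

theorem cf_up (τ : ℂ) {a b c : α} (hab : a ≠ b) (hac : a ≠ c) (f : α → α) :
    cf τ b c (join a b f) = 1 := by
  unfold cf; rw [join_right hab, if_neg hac, if_neg]
  rintro ⟨h, -⟩
  exact hab h

theorem cf_down (τ : ℂ) {a b c : α} (hac : a ≠ c) (hbc : b ≠ c) {f : α → α}
    (hf : ∀ x, f (f x) = x) : cf τ a b (join b c f) = 1 := by
  have h1 : join b c f b = c := join_left f
  unfold cf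
  rw [if_neg, if_neg]
  · rintro ⟨-, h⟩
    rw [h1] at h
    exact hbc h.symm
  · intro h
    have h2 := join_inv hbc hf a
    rw [h, h1] at h2
    exact hac h2.symm

theorem cf_comm (τ : ℂ) {a b c d : α} (hab : a ≠ b) (hac : a ≠ c) (had : a ≠ d) (hbc : b ≠ c)
    (hbd : b ≠ d) (hcd : c ≠ d) {f : α → α} (hf : ∀ x, f (f x) = x) :
    cf τ a b (join c d f) * cf τ c d f = cf τ c d (join a b f) * cf τ a b f := by
  have ha := hf a
  have hb := hf b
  have hc := hf c
  have hd := hf d
  unfold cf join
  grind (splits := 60)

end Pool.Agent.TLU
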