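import Pool.Agent.TLU.Row

set_option autoImplicit false

/-!
# The elements `W k` act trivially modulo the products of `k + 2` non-adjacent generators
-/

namespace Pool.Agent.TLU

variable {T : Type} [Ring T] [Algebra ℂ T]

/-- the Kauffman bracket representation of the letters -/
structure Rep (A τ : ℂ) (N : ℕ) (e : ℕ → T) (s : ℕ → Tˣ) : Prop where
  tl : TLS τ N e
  ne : A ≠ 0
  par : τ = -A ^ 2 - A⁻¹ ^ 2
  val : ∀ i, i < N → (s i : T) = algebraMap ℂ T A + A⁻¹ • e i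

theorem Rep.shift {A τ : ℂ} {N : ℕ} {e : ℕ → T} {s : ℕ → Tˣ} (h : Rep A τ N e s) (p : ℕ) :
    Rep A τ (N - p) (fun i => e (p + i)) (fun i => s (p + i)) where
  tl := h.tl.shift p
  ne := h.ne
  par := h.par
  val i hi := h.val (p + i) (by omega)

theorem Rep.inv {A τ : ℂ} {N : ℕ} {e : ℕ → T} {s : ℕ → Tˣ} (h : Rep A τ N e s) {i : ℕ}
    (hi : i < N) : (((s i)⁻¹ : Tˣ) : T) = algebraMap ℂ T A⁻¹ + A • e i := by
  apply Units.inv_eq_of_mul_eq_one_right
  have hA := h.ne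
  rw [h.val i hi]
  have h1 : (algebraMap ℂ T A + A⁻¹ • e i) * (algebraMap ℂ T A⁻¹ + A • e i) =
      (A * A⁻¹) • (1 : T) + (A * A + A⁻¹ * A⁻¹) • e i + (A⁻¹ * A) • (e i * e i) := by
    simp only [Algebra.algebraMap_eq_smul_one, add_mul, mul_add, smul_mul_assoc, mul_smul_comm,
      one_mul, mul_one]
    module
  rw [h1, h.tl.sq i hi, h.par]
  match_scalars <;> field_simp <;> ring

/-- the value of a word in the algebra -/
def vl (s : ℕ → Tˣ) (g : FreeGroup ℕ) : T := ((FreeGroup.lift s g : Tˣ) : T)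

omit [Algebra ℂ T] in
theorem vl_mul (s : ℕ → Tˣ) (g h : FreeGroup ℕ) : vl s (g * h) = vl s g * vl s h := by
  unfold vl; rw [map_mul, Units.val_mul]

omit [Algebra ℂ T] in
theorem vl_one (s : ℕ → Tˣ) : vl s 1 = 1 := by
  unfold vl; rw [map_one, Units.val_one]

omit [Algebra ℂ T] in
theorem vl_inv_mul (s : ℕ → Tˣ) (g : FreeGroup ℕ) : vl s g⁻¹ * vl s g = 1 := by
  rw [← vl_mul, inv_mul_cancel, vl_one]

omit [Algebra ℂ T] in
omit [Algebra ℂ T] in
theorem vl_mul_inv (s : ℕ → Tˣ) (g : FreeGroup ℕ) : vl s g * vl s g⁻¹ = 1 := by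
  rw [← vl_mul, mul_inv_cancel, vl_one]

omit [Algebra ℂ T] in
theorem vl_of (s : ℕ → Tˣ) (i : ℕ) : vl s (FreeGroup.of i) = (s i : T) := by
  unfold vl; rw [FreeGroup.lift_apply_of]

omit [Algebra ℂ T] in
theorem vl_of_inv (s : ℕ → Tˣ) (i : ℕ) :
    vl s (FreeGroup.of i)⁻¹ = (((s i)⁻¹ : Tˣ) : T) := by
  unfold vl; rw [map_inv, FreeGroup.lift_apply_of]

/-- the values of words in the first `m` letters are in `S e m` -/
theorem Rep.vl_mem {A τ : ℂ} {N : ℕ} {e : ℕ → T} {s : ℕ → Tˣ} (h : Rep A τ N e s) {m : ℕ}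
    (hm : m ≤ N) {g : FreeGroup ℕ} (hg : g ∈ C m) : vl s g ∈ S e m := by
  have h1 : ∀ g ∈ C m, vl s g ∈ S e m ∧ vl s g⁻¹ ∈ S e m := by
    intro g hg
    induction hg using Subgroup.closure_induction with
    | mem g hg =>
      obtain ⟨i, hi, rfl⟩ := hg
      have hi' : i < m := hi
      refine ⟨?_, ?_⟩
      · rw [vl_of, h.val i (by omega)]
        exact add_mem (Subalgebra.algebraMap_mem _ _) (Subalgebra.smul_mem _ (e_mem e hi') _)
      · rw [vl_of_inv, h.inv (by omega)]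
        exact add_mem (Subalgebra.algebraMap_mem _ _) (Subalgebra.smul_mem _ (e_mem e hi') _)
    | one => rw [inv_one, vl_one]; exact ⟨one_mem _, one_mem _⟩
    | mul x y _ _ hx hy =>
      rw [mul_inv_rev, vl_mul, vl_mul]
      exact ⟨mul_mem hx.1 hy.1, mul_mem hy.2 hx.2⟩
    | inv x _ hx => rw [inv_inv]; exact ⟨hx.2, hx.1⟩
  exact (h1 g hg).1

/-- the weight of a letter -/
def wt (A : ℂ) (p : ℕ × Bool) : ℂ := if p.2 then A ^ 3 else A

theorem Rep.lt_eq {A τ : ℂ} {N : ℕ} {e : ℕ → T} {s : ℕ → Tˣ} (h : Rep A τ N e s)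
    (p : ℕ × Bool) (hp : p.1 < N) :
    lt A e p = wt A p • vl s (if p.2 then FreeGroup.of p.1 else (FreeGroup.of p.1)⁻¹) := by
  have hA := h.ne
  obtain ⟨i, b⟩ := p
  cases b
  · simp only [lt, wt, Bool.false_eq_true, if_false]
    rw [vl_of_inv, h.inv hp, Algebra.algebraMap_eq_smul_one]
    match_scalars <;> field_simp
  · simp only [lt, wt, if_true]
    rw [vl_of, h.val i hp, Algebra.algebraMap_eq_smul_one, Algebra.algebraMap_eq_smul_one]
    match_scalars <;> field_simp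

theorem Rep.prod_eq {A τ : ℂ} {N : ℕ} {e : ℕ → T} {s : ℕ → Tˣ} (h : Rep A τ N e s)
    (L : List (ℕ × Bool)) (hL : ∀ p ∈ L, p.1 < N) :
    (L.map (lt A e)).prod = (L.map (wt A)).prod • vl s (w L) := by
  induction L with
  | nil => simp [w, vl_one]
  | cons p L ih =>
    rw [List.map_cons, List.prod_cons, List.map_cons, List.prod_cons, w_cons, vl_mul,
      ih fun q hq => hL q (List.mem_cons_of_mem _ hq), h.lt_eq p (hL p List.mem_cons_self),
      smul_mul_smul_comm]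

theorem wt_ne {A : ℂ} (hA : A ≠ 0) (L : List (ℕ × Bool)) : (L.map (wt A)).prod ≠ 0 := by
  apply List.prod_ne_zero
  intro h
  obtain ⟨p, -, hp⟩ := List.mem_map.1 h
  unfold wt at hp
  split_ifs at hp
  · exact pow_ne_zero 3 hA hp
  · exact hA hp

theorem lt_mem (A : ℂ) (e : ℕ → T) {m : ℕ} (p : ℕ × Bool) (hp : p.1 < m) : lt A e p ∈ S e m := by
  unfold lt
  refine add_mem ?_ (Subalgebra.smul_mem _ (e_mem e hp) _)
  split_ifs
  · exact Subalgebra.algebraMap_mem _ _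
  · exact one_mem _

theorem prod_mem' (A : ℂ) (e : ℕ → T) {m : ℕ} (L : List (ℕ × Bool)) (hL : ∀ p ∈ L, p.1 < m) :
    (L.map (lt A e)).prod ∈ S e m := by
  apply list_prod_mem
  intro x hx
  obtain ⟨p, hp, rfl⟩ := List.mem_map.1 hx
  exact lt_mem A e p (hL p hp)

theorem col_word {τ A : ℂ} {N : ℕ} {e : ℕ → T} (h : TLS τ N e) (hN : 4 ≤ N) (hA : A ≠ 0)
    (hτ : τ = -A ^ 2 - A⁻¹ ^ 2) (L : List (ℕ × Bool)) (hL : ∀ p ∈ L, p.1 < 4) (c : V4 ℂ) :
    (L.map (lt A e)).prod * col A e c - col A e (L.foldr (av (A ^ 4)) c) ∈ J e 2 4 := by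
  induction L with
  | nil => simp
  | cons p L ih =>
    have h1 := ih fun q hq => hL q (List.mem_cons_of_mem _ hq)
    have hp := hL p List.mem_cons_self
    rw [List.map_cons, List.prod_cons, List.foldr_cons]
    have h2 := J_left e (lt_mem A e p hp) h1
    have h3 := col_step h hN hA hτ p hp (L.foldr (av (A ^ 4)) c)
    have h4 := add_mem h2 h3
    rw [mul_sub, ← mul_assoc, sub_add_sub_cancel] at h4
    exact h4

theorem row_word {τ A : ℂ} {N : ℕ} {e : ℕ → T} (h : TLS τ N e) (hN : 4 ≤ N) (hA : A ≠ 0)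
    (hτ : τ = -A ^ 2 - A⁻¹ ^ 2) (L : List (ℕ × Bool)) (hL : ∀ p ∈ L, p.1 < 4) :
    ∀ c : V4 ℂ, row A e c * (L.map (lt A e)).prod -
      row A e (L.foldl (fun c p => av (A ^ 4) p c) c) ∈ J e 2 4 := by
  induction L with
  | nil => intro c; simp
  | cons p L ih =>
    intro c
    have hp := hL p List.mem_cons_self
    have h1 := ih (fun q hq => hL q (List.mem_cons_of_mem _ hq)) (av (A ^ 4) p c)
    rw [List.map_cons, List.prod_cons, List.foldl_cons]
    have h2 := J_right e (prod_mem' A e L fun q hq => hL q (List.mem_cons_of_mem _ hq))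
      (row_step h hN hA hτ p hp c)
    have h4 := add_mem h2 h1
    rw [sub_mul, mul_assoc, sub_add_sub_cancel] at h4
    exact h4

theorem col_smul (A : ℂ) (e : ℕ → T) (r a b c : ℂ) :
    col A e (r * a, r * b, r * c, 0) = r • col A e (a, b, c, 0) := by
  simp only [col]
  module

theorem row_smul (A : ℂ) (e : ℕ → T) (r a b c : ℂ) :
    row A e (r * a, r * b, r * c, 0) = r • row A e (a, b, c, 0) := by
  simp only [row]
  module

theorem invL_lt : ∀ p ∈ invL gL, p.1 < 4 := by decide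

theorem FL_rev : FL.reverse = FL := by decide

/-- `F g e_3 = A^4 g e_3` -/
theorem Rep.Fg {A τ : ℂ} {N : ℕ} {e : ℕ → T} {s : ℕ → Tˣ} (h : Rep A τ N e s) (hN : 4 ≤ N) :
    vl s (w FL) * vl s (w gL) * e 3 - A ^ 4 • (vl s (w gL) * e 3) ∈ J e 2 4 := by
  have hA := h.ne
  have h1 := col_word h.tl hN hA h.par gL gL_lt (0, 0, 0, 1)
  set P := (gL.map (lt A e)).prod with hP
  set Q := (FL.map (lt A e)).prod with hQ
  obtain ⟨a, b, c, d, hg⟩ : ∃ a b c d, gL.foldr (av (A ^ 4)) (0, 0, 0, 1) = (a, b, c, d) :=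
    ⟨_, _, _, _, rfl⟩
  have hd : d = 0 := by
    have := g_last (A ^ 4)
    rw [hg] at this
    exact this
  subst hd
  rw [hg] at h1
  have h2 := col_word h.tl hN hA h.par FL FL_lt (a, b, c, 0)
  rw [F_col, col_smul, ← hQ] at h2
  -- `Q P v = q^7 P v`
  have hQm : Q ∈ S e 4 := prod_mem' A e FL FL_lt
  have h3 : Q * (P * col A e (0, 0, 0, 1)) - (A ^ 4) ^ 7 • (P * col A e (0, 0, 0, 1)) ∈
      J e 2 4 := by
    have h4 := add_mem (add_mem (J_left e hQm h1) h2)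
      (Submodule.smul_mem _ (-(A ^ 4) ^ 7) h1)
    have h5 : Q * (P * col A e (0, 0, 0, 1) - col A e (a, b, c, 0)) +
        (Q * col A e (a, b, c, 0) - (A ^ 4) ^ 7 • col A e (a, b, c, 0)) +
        (-(A ^ 4) ^ 7) • (P * col A e (0, 0, 0, 1) - col A e (a, b, c, 0)) =
        Q * (P * col A e (0, 0, 0, 1)) - (A ^ 4) ^ 7 • (P * col A e (0, 0, 0, 1)) := by
      rw [mul_sub]
      module
    rw [h5] at h4
    exact h4
  -- multiply on the right
  have hR : e 1 * e 2 * e 3 ∈ S e 4 :=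
    mul_mem (mul_mem (e_mem e (by omega)) (e_mem e (by omega))) (e_mem e (by omega))
  have h6 : col A e (0, 0, 0, 1) * (e 1 * e 2 * e 3) = A ^ 6 • e 3 := by
    have h7 : col A e (0, 0, 0, 1) = A ^ 6 • (e 3 * e 2 * e 1 * e 0) := by
      simp only [col]; module
    rw [h7, smul_mul_assoc]
    congr 1
    have u1 := h.tl.down 0 (by omega)
    have u2 := h.tl.down 1 (by omega)
    have u3 := h.tl.down 2 (by omega)
    calc e 3 * e 2 * e 1 * e 0 * (e 1 * e 2 * e 3)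
        = e 3 * (e 2 * (e (0 + 1) * e 0 * e (0 + 1)) * e 2) * e 3 := by
          simp only [Nat.zero_add]; noncomm_ring
      _ = e 3 * (e (1 + 1) * e 1 * e (1 + 1)) * e 3 := by rw [u1]
      _ = e (2 + 1) * e 2 * e (2 + 1) := by rw [u2]
      _ = e 3 := by rw [u3]
  have h8 := J_right e hR h3
  have h9 : (Q * (P * col A e (0, 0, 0, 1)) - (A ^ 4) ^ 7 • (P * col A e (0, 0, 0, 1))) *
      (e 1 * e 2 * e 3) = A ^ 6 • (Q * P * e 3 - A ^ 28 • (P * e 3)) := by
    rw [sub_mul, smul_mul_assoc, mul_assoc Q, mul_assoc P, h6]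
    simp only [mul_smul_comm, mul_assoc]
    module
  rw [h9] at h8
  have hP' : P = (gL.map (wt A)).prod • vl s (w gL) :=
    h.prod_eq gL fun p hp => lt_of_lt_of_le (gL_lt p hp) hN
  have hQ' : Q = (A ^ 24) • vl s (w FL) := by
    rw [hQ, h.prod_eq FL fun p hp => lt_of_lt_of_le (FL_lt p hp) hN]
    congr 1
    simp only [FL, List.map_cons, List.map_nil, List.prod_cons, List.prod_nil, wt, if_true]
    ring
  have hc := wt_ne hA gL
  set r := (gL.map (wt A)).prod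
  have h10 := Submodule.smul_mem (J e 2 4) ((A ^ 6 * A ^ 24 * r)⁻¹) h8
  have h11 : (A ^ 6 * A ^ 24 * r)⁻¹ • (A ^ 6 • (Q * P * e 3 - A ^ 28 • (P * e 3))) =
      vl s (w FL) * vl s (w gL) * e 3 - A ^ 4 • (vl s (w gL) * e 3) := by
    rw [hP', hQ']
    simp only [smul_mul_assoc, mul_smul_comm]
    match_scalars <;> field_simp
  rw [h11] at h10
  exact h10

/-- `e_3 g⁻¹ F = A^4 e_3 g⁻¹` -/
theorem Rep.gF {A τ : ℂ} {N : ℕ} {e : ℕ → T} {s : ℕ → Tˣ} (h : Rep A τ N e s) (hN : 4 ≤ N) :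
    e 3 * vl s (w gL)⁻¹ * vl s (w FL) - A ^ 4 • (e 3 * vl s (w gL)⁻¹) ∈ J e 2 4 := by
  have hA := h.ne
  have h1 := row_word h.tl hN hA h.par (invL gL) invL_lt (0, 0, 0, 1)
  set P := ((invL gL).map (lt A e)).prod with hP
  set Q := (FL.map (lt A e)).prod with hQ
  rw [← List.foldr_reverse] at h1
  obtain ⟨a, b, c, d, hg⟩ : ∃ a b c d,
      (invL gL).reverse.foldr (av (A ^ 4)) (0, 0, 0, 1) = (a, b, c, d) := ⟨_, _, _, _, rfl⟩
  have hd : d = 0 := by
    have := gI_last (A ^ 4)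
    unfold gI at this
    rw [hg] at this
    exact this
  subst hd
  rw [hg] at h1
  have h2 := row_word h.tl hN hA h.par FL FL_lt (a, b, c, 0)
  rw [← List.foldr_reverse, FL_rev, F_col, row_smul, ← hQ] at h2
  have hQm : Q ∈ S e 4 := prod_mem' A e FL FL_lt
  have h3 : (row A e (0, 0, 0, 1) * P) * Q - (A ^ 4) ^ 7 • (row A e (0, 0, 0, 1) * P) ∈
      J e 2 4 := by
    have h4 := add_mem (add_mem (J_right e hQm h1) h2)
      (Submodule.smul_mem _ (-(A ^ 4) ^ 7) h1)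
    have h5 : (row A e (0, 0, 0, 1) * P - row A e (a, b, c, 0)) * Q +
        (row A e (a, b, c, 0) * Q - (A ^ 4) ^ 7 • row A e (a, b, c, 0)) +
        (-(A ^ 4) ^ 7) • (row A e (0, 0, 0, 1) * P - row A e (a, b, c, 0)) =
        (row A e (0, 0, 0, 1) * P) * Q - (A ^ 4) ^ 7 • (row A e (0, 0, 0, 1) * P) := by
      rw [sub_mul]
      module
    rw [h5] at h4
    exact h4
  have hR : e 3 * e 2 * e 1 ∈ S e 4 :=
    mul_mem (mul_mem (e_mem e (by omega)) (e_mem e (by omega))) (e_mem e (by omega))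
  have h6 : (e 3 * e 2 * e 1) * row A e (0, 0, 0, 1) = A ^ 6 • e 3 := by
    have h7 : row A e (0, 0, 0, 1) = A ^ 6 • (e 0 * e 1 * e 2 * e 3) := by
      simp only [row]; module
    rw [h7, mul_smul_comm]
    congr 1
    have u1 := h.tl.down 0 (by omega)
    have u2 := h.tl.down 1 (by omega)
    have u3 := h.tl.down 2 (by omega)
    calc e 3 * e 2 * e 1 * (e 0 * e 1 * e 2 * e 3)
        = e 3 * (e 2 * (e (0 + 1) * e 0 * e (0 + 1)) * e 2) * e 3 := by
          simp only [Nat.zero_add]; noncomm_ring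
      _ = e 3 * (e (1 + 1) * e 1 * e (1 + 1)) * e 3 := by rw [u1]
      _ = e (2 + 1) * e 2 * e (2 + 1) := by rw [u2]
      _ = e 3 := by rw [u3]
  have h8 := J_left e hR h3
  have h9 : (e 3 * e 2 * e 1) * ((row A e (0, 0, 0, 1) * P) * Q -
      (A ^ 4) ^ 7 • (row A e (0, 0, 0, 1) * P)) =
      A ^ 6 • (e 3 * P * Q - A ^ 28 • (e 3 * P)) := by
    rw [mul_sub, mul_smul_comm, ← mul_assoc, ← mul_assoc, h6]
    simp only [smul_mul_assoc]
    module
  rw [h9] at h8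
  have hP' : P = ((invL gL).map (wt A)).prod • vl s (w gL)⁻¹ := by
    rw [hP, h.prod_eq (invL gL) fun p hp => lt_of_lt_of_le (invL_lt p hp) hN, w_inv]
  have hQ' : Q = (A ^ 24) • vl s (w FL) := by
    rw [hQ, h.prod_eq FL fun p hp => lt_of_lt_of_le (FL_lt p hp) hN]
    congr 1
    simp only [FL, List.map_cons, List.map_nil, List.prod_cons, List.prod_nil, wt, if_true]
    ring
  have hc := wt_ne hA (invL gL)
  set r := ((invL gL).map (wt A)).prod
  have h10 := Submodule.smul_mem (J e 2 4) ((A ^ 6 * A ^ 24 * r)⁻¹) h8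
  have h11 : (A ^ 6 * A ^ 24 * r)⁻¹ • (A ^ 6 • (e 3 * P * Q - A ^ 28 • (e 3 * P))) =
      e 3 * vl s (w gL)⁻¹ * vl s (w FL) - A ^ 4 • (e 3 * vl s (w gL)⁻¹) := by
    rw [hP', hQ']
    simp only [smul_mul_assoc, mul_smul_comm]
    match_scalars <;> field_simp
  rw [h11] at h10
  exact h10

theorem W1_word : W1 = FreeGroup.of 3 * ((w gL)⁻¹ * w FL * w gL) * (FreeGroup.of 3)⁻¹ *
    ((w gL)⁻¹ * w FL * w gL)⁻¹ := by
  have h3 : w [(3, true)] = FreeGroup.of 3 := by simp [w]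
  have h4 : w [(3, false)] = (FreeGroup.of 3)⁻¹ := by simp [w]
  rw [W1_eq]
  unfold XL
  rw [w_append, w_append, w_append, w_append, w_append, w_append, w_append, w_inv, w_inv, h3, h4]
  group

/-- the base element -/
theorem Rep.base {A τ : ℂ} {N : ℕ} {e : ℕ → T} {s : ℕ → Tˣ} (h : Rep A τ N e s) (hN : 4 ≤ N) :
    vl s W1 - 1 ∈ J e 2 4 := by
  have hg : w gL ∈ C 4 := w_mem gL_lt
  have hF : w FL ∈ C 4 := w_mem FL_lt
  have h3 : FreeGroup.of 3 ∈ C 4 := of_mem (by omega)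
  set g := w gL
  set F := w FL
  set b := g⁻¹ * F * g with hb
  have hbm : b ∈ C 4 := mul_mem (mul_mem (inv_mem hg) hF) hg
  -- `b e_3 = A^4 e_3 = e_3 b`
  have h1 := J_left e (h.vl_mem hN (inv_mem hg)) (h.Fg hN)
  have h2 := J_right e (h.vl_mem hN hg) (h.gF hN)
  have k1 : vl s g⁻¹ * (vl s F * vl s g * e 3 - A ^ 4 • (vl s g * e 3)) =
      vl s b * e 3 - A ^ 4 • e 3 := by
    rw [hb, vl_mul, vl_mul, mul_sub, mul_smul_comm, ← mul_assoc (vl s g⁻¹) (vl s g),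
      vl_inv_mul, one_mul]
    congr 1
    simp only [mul_assoc]
  have k2 : (e 3 * vl s g⁻¹ * vl s F - A ^ 4 • (e 3 * vl s g⁻¹)) * vl s g =
      e 3 * vl s b - A ^ 4 • e 3 := by
    rw [hb, vl_mul, vl_mul, sub_mul, smul_mul_assoc, mul_assoc (e 3) (vl s g⁻¹) (vl s g),
      vl_inv_mul, mul_one]
    congr 1
    simp only [mul_assoc]
  rw [k1] at h1
  rw [k2] at h2
  have h4 := sub_mem h2 h1
  have h5 : e 3 * vl s b - A ^ 4 • e 3 - (vl s b * e 3 - A ^ 4 • e 3) =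
      e 3 * vl s b - vl s b * e 3 := by abel
  rw [h5] at h4
  have h6 := Submodule.smul_mem _ (A⁻¹) h4
  have h7 := J_right e (h.vl_mem hN (mul_mem (inv_mem h3) (inv_mem hbm))) h6
  have h8 : A⁻¹ • (e 3 * vl s b - vl s b * e 3) * vl s ((FreeGroup.of 3)⁻¹ * b⁻¹) =
      vl s W1 - 1 := by
    have h9 : A⁻¹ • (e 3 * vl s b - vl s b * e 3) =
        vl s (FreeGroup.of 3) * vl s b - vl s b * vl s (FreeGroup.of 3) := by
      rw [vl_of, h.val 3 (by omega), add_mul, mul_add, Algebra.commutes, smul_mul_assoc,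
        mul_smul_comm, smul_sub]
      abel
    rw [h9, sub_mul, ← vl_mul, ← vl_mul, ← vl_mul, ← vl_mul, W1_word]
    have h10 : b * FreeGroup.of 3 * ((FreeGroup.of 3)⁻¹ * b⁻¹) = 1 := by group
    rw [h10, vl_one, ← mul_assoc]
  rw [h8] at h7
  exact h7

/-- the commutator of two braids that share one strand -/
theorem Rep.comm_mem {A τ : ℂ} {N : ℕ} {e : ℕ → T} {s : ℕ → Tˣ} (h : Rep A τ N e s)
    {k l p q : ℕ} (hN : p + q ≤ N) {X Y : FreeGroup ℕ} (hX : X ∈ C p) (hY : Y ∈ C (p + q))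
    (h1 : vl s X - 1 ∈ J e (k + 1) p) (h2 : vl s Y - 1 ∈ J (fun i => e (p + i)) l q) :
    vl s (X * Y * X⁻¹ * Y⁻¹) - 1 ∈ J e (k + l) (p + q) := by
  have m1 := J_mul h.tl hN h1 h2
  have m2 := J_mul' h.tl hN h1 h2
  have m3 := sub_mem m1 m2
  have hX' : X ∈ C (p + q) := C_mono (by omega) hX
  have m4 := J_right e (h.vl_mem hN (mul_mem (inv_mem hX') (inv_mem hY))) m3
  have m5 : ((vl s X - 1) * (vl s Y - 1) - (vl s Y - 1) * (vl s X - 1)) *
      vl s (X⁻¹ * Y⁻¹) = vl s (X * Y * X⁻¹ * Y⁻¹) - 1 := by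
    have m6 : (vl s X - 1) * (vl s Y - 1) - (vl s Y - 1) * (vl s X - 1) =
        vl s X * vl s Y - vl s Y * vl s X := by noncomm_ring
    rw [m6, sub_mul, ← vl_mul, ← vl_mul, ← vl_mul, ← vl_mul]
    have m7 : Y * X * (X⁻¹ * Y⁻¹) = 1 := by group
    rw [m7, vl_one, ← mul_assoc]
  rw [m5] at m4
  exact m4

omit [Algebra ℂ T] in
theorem vl_sh (s : ℕ → Tˣ) (p : ℕ) (g : FreeGroup ℕ) :
    vl s (sh p g) = vl (fun i => s (p + i)) g := by
  have h1 : (FreeGroup.lift s).comp (sh p) = FreeGroup.lift (fun i => s (p + i)) := by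
    ext i
    simp [sh]
  unfold vl
  rw [← h1]
  rfl

/-- the main statement of this file -/
theorem Rep.main {A τ : ℂ} {N : ℕ} {e : ℕ → T} {s : ℕ → Tˣ} (h : Rep A τ N e s) :
    ∀ k, 4 * (k + 1) ≤ N → vl s (W k) - 1 ∈ J e (k + 2) (4 * (k + 1)) := by
  intro k
  induction k with
  | zero => intro hN; rw [W_zero]; exact h.base hN
  | succ k ih =>
    intro hN
    have h1 := ih (by omega)
    have h2 := (h.shift (4 * (k + 1))).base (by omega)
    rw [← vl_sh] at h2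
    have h3 := h.comm_mem (k := k + 1) (l := 2) (p := 4 * (k + 1)) (q := 4) (by omega) (W_mem k)
      (sh_mem _ W1_mem) h1 h2
    rw [W_succ]
    exact h3

end Pool.Agent.TLU
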