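import Pool.Agent.TLU.Link

set_option autoImplicit false

/-!
# Products of `k` non-adjacent generators kill the partial matchings with fewer than `k` arcs
-/

namespace Pool.Agent.TLU

/-- the set of matched points -/
def mt {α : Type} [Fintype α] [DecidableEq α] (f : α → α) : Finset α :=
  Finset.univ.filter (fun x => f x ≠ x)

theorem mem_mt {α : Type} [Fintype α] [DecidableEq α] {f : α → α} {x : α} :
    x ∈ mt f ↔ f x ≠ x := by
  unfold mt; simp

theorem mt_join {α : Type} [Fintype α] [DecidableEq α] {a b : α} (hab : a ≠ b) {f : α → α}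
    (hf : ∀ x, f (f x) = x) (h : ¬ (f a = a ∧ f b = b)) :
    (mt (join a b f)).card = (mt f).card := by
  by_cases ha : f a = a
  · have hb : f b ≠ b := fun hb => h ⟨ha, hb⟩
    have hd : f b ≠ a := by
      intro h1
      have h2 := hf b
      rw [h1, ha] at h2
      exact hab h2
    have e : mt (join a b f) = insert a ((mt f).erase (f b)) := by
      ext x
      rw [Finset.mem_insert, Finset.mem_erase, mem_mt, mem_mt]
      have h1 := hf x
      have h2 := hf b
      unfold join
      grind
    rw [e, Finset.card_insert_of_notMem, Finset.card_erase_of_mem]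
    · have h3 : f b ∈ mt f := by rw [mem_mt, hf b]; exact hb.symm
      have := Finset.card_pos.2 ⟨_, h3⟩
      omega
    · rw [mem_mt, hf b]; exact hb.symm
    · rw [Finset.mem_erase, mem_mt]
      rintro ⟨-, h1⟩
      exact h1 ha
  · by_cases hb : f b = b
    · have hd : f a ≠ b := by
        intro h1
        have h2 := hf a
        rw [h1, hb] at h2
        exact hab h2.symm
      have e : mt (join a b f) = insert b ((mt f).erase (f a)) := by
        ext x
        rw [Finset.mem_insert, Finset.mem_erase, mem_mt, mem_mt]
        have h1 := hf x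
        have h2 := hf a
        unfold join
        grind
      rw [e, Finset.card_insert_of_notMem, Finset.card_erase_of_mem]
      · have h3 : f a ∈ mt f := by
          rw [mem_mt, hf a]; exact fun h => ha h.symm
        have := Finset.card_pos.2 ⟨_, h3⟩
        omega
      · rw [mem_mt, hf a]; exact fun h => ha h.symm
      · rw [Finset.mem_erase, mem_mt]
        rintro ⟨-, h1⟩
        exact h1 hb
    · congr 1
      ext x
      rw [mem_mt, mem_mt]
      have h1 := hf x
      have h2 := hf a
      have h3 := hf b
      unfold join
      grind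

variable {n : ℕ}

theorem mt_jn (τ : ℂ) (i : ℕ) (f : PM n) (h : co τ i f ≠ 0) :
    (mt (jn i f).1).card = (mt f.1).card := by
  by_cases hi : i + 1 < n
  · rw [jn_val hi]
    rw [co_val τ hi] at h
    by_cases h1 : f.1 ⟨i, by omega⟩ = ⟨i, by omega⟩ ∧ f.1 ⟨i + 1, hi⟩ = ⟨i + 1, hi⟩
    · exfalso
      apply h
      unfold cf
      rw [if_neg, if_pos h1]
      rw [h1.1]
      simp [Fin.ext_iff]
    · exact mt_join (by simp [Fin.ext_iff]) f.2 h1
  · exfalso
    apply h
    unfold co
    rw [dif_neg hi]

/-- products of `k` non-adjacent generators kill partial matchings with fewer than `k` arcs; `Z`: matched points out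
of reach of the generators -/
theorem kill_aux (τ : ℂ) : ∀ (k p : ℕ), p + 1 ≤ n →
    ∀ x ∈ E (fun i => (opr τ i : Module.End ℂ (PM n →₀ ℂ))) k p,
    ∀ (f : PM n) (Z : Finset (Fin n)), (∀ y ∈ Z, f.1 y ∈ Z ∧ f.1 y ≠ y) →
      (∀ y ∈ Z, p = 0 ∨ p < y.1) → (mt f.1).card < 2 * k + Z.card →
      x (Finsupp.single f 1) = 0 := by
  intro k
  induction k with
  | zero =>
    intro p _ x _ f Z h1 _ h3
    exfalso
    have h4 : Z ⊆ mt f.1 := fun y hy => mem_mt.2 (h1 y hy).2
    have := Finset.card_le_card h4
    omega
  | succ k ih =>
    rintro p hp _ ⟨i, hi, x, hx, rfl⟩ f Z h1 h2 h3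
    rw [Module.End.mul_apply, opr_single, one_mul]
    by_cases hc : co τ i f = 0
    · rw [hc, Finsupp.single_zero, map_zero]
    · have h4 := mt_jn τ i f hc
      have hin : i + 1 < n := by omega
      have h5 : x (Finsupp.single (jn i f) 1) = 0 := by
        set a : Fin n := ⟨i, by omega⟩ with ha
        set b : Fin n := ⟨i + 1, hin⟩ with hb
        have hab : a ≠ b := by simp [ha, hb, Fin.ext_iff]
        have haZ : a ∉ Z := fun h => by
          rcases h2 a h with h' | h'
          · omega
          · simp [ha] at h'; omega
        have hbZ : b ∉ Z := fun h => by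
          rcases h2 b h with h' | h'
          · omega
          · simp [hb] at h'; omega
        refine ih (i - 1) (by omega) x hx (jn i f) (insert a (insert b Z)) ?_ ?_ ?_
        · intro y hy
          rw [jn_val hin]
          rw [Finset.mem_insert, Finset.mem_insert] at hy
          rcases hy with h | h | hy
          · rw [h]
            change join a b f.1 a ∈ _ ∧ join a b f.1 a ≠ a
            rw [join_left]
            exact ⟨Finset.mem_insert_of_mem (Finset.mem_insert_self _ _), hab.symm⟩
          · rw [h]
            change join a b f.1 b ∈ _ ∧ join a b f.1 b ≠ b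
            rw [join_right hab]
            exact ⟨Finset.mem_insert_self _ _, hab⟩
          · have g1 := h1 y hy
            have g2 : y ≠ a := fun h => haZ (h ▸ hy)
            have g3 : y ≠ b := fun h => hbZ (h ▸ hy)
            have g4 : f.1 y ≠ a := fun h => haZ (h ▸ g1.1)
            have g5 : f.1 y ≠ b := fun h => hbZ (h ▸ g1.1)
            have g6 : join a b f.1 y = f.1 y := by
              unfold join
              rw [if_neg g2, if_neg g3, if_neg g4, if_neg g5]
            rw [g6]
            exact ⟨by simp [g1.1], g1.2⟩
        · intro y hy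
          rw [Finset.mem_insert, Finset.mem_insert] at hy
          rcases Nat.eq_zero_or_pos (i - 1) with h0 | h0
          · exact Or.inl h0
          · right
            rcases hy with h | h | hy
            · rw [h, ha]
              show i - 1 < i
              omega
            · rw [h, hb]
              show i - 1 < i + 1
              omega
            · rcases h2 y hy with h' | h' <;> omega
        · rw [Finset.card_insert_of_notMem, Finset.card_insert_of_notMem hbZ, h4]
          · omega
          · rw [Finset.mem_insert]
            rintro (h | h)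
            · exact hab h
            · exact haZ h
      have h6 : Finsupp.single (jn i f) (co τ i f) =
          co τ i f • Finsupp.single (jn i f) (1 : ℂ) := by
        rw [Finsupp.smul_single, smul_eq_mul, mul_one]
      rw [h6, map_smul, h5, smul_zero]

theorem kill (τ : ℂ) {k : ℕ} {x : Module.End ℂ (PM n →₀ ℂ)}
    (hx : x ∈ E (fun i => (opr τ i : Module.End ℂ (PM n →₀ ℂ))) k (n - 1)) (hn : 1 ≤ n)
    {f : PM n} (hf : (mt f.1).card < 2 * k) : x (Finsupp.single f 1) = 0 :=
  kill_aux τ k (n - 1) (by omega) x hx f ∅ (by simp) (by simp) (by simpa using hf)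

/-- the span of the partial matchings with at most `m` matched points -/
noncomputable def lev (n m : ℕ) : Submodule ℂ (PM n →₀ ℂ) :=
  Submodule.span ℂ {v | ∃ f : PM n, (mt f.1).card ≤ m ∧ v = Finsupp.single f 1}

theorem lev_opr (τ : ℂ) (i m : ℕ) {v : PM n →₀ ℂ} (hv : v ∈ lev n m) :
    opr τ i v ∈ lev n m := by
  induction hv using Submodule.span_induction with
  | mem v hv =>
    obtain ⟨f, hf, rfl⟩ := hv
    rw [opr_single, one_mul]
    by_cases hc : co τ i f = 0
    · rw [hc, Finsupp.single_zero]; exact zero_mem _
    · have h6 : Finsupp.single (jn i f) (co τ i f) =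
          co τ i f • Finsupp.single (jn i f) (1 : ℂ) := by
        rw [Finsupp.smul_single, smul_eq_mul, mul_one]
      rw [h6]
      refine Submodule.smul_mem _ _ (Submodule.subset_span ⟨_, ?_, rfl⟩)
      rw [mt_jn τ i f hc]
      exact hf
  | zero => rw [map_zero]; exact zero_mem _
  | add x y _ _ hx hy => rw [map_add]; exact add_mem hx hy
  | smul c x _ hx => rw [map_smul]; exact Submodule.smul_mem _ _ hx

theorem lev_S (τ : ℂ) (p m : ℕ) {x : Module.End ℂ (PM n →₀ ℂ)}
    (hx : x ∈ S (fun i => (opr τ i : Module.End ℂ (PM n →₀ ℂ))) p) :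
    ∀ v ∈ lev n m, x v ∈ lev n m := by
  induction hx using Algebra.adjoin_induction with
  | mem x hx => obtain ⟨i, _, rfl⟩ := hx; exact fun v hv => lev_opr τ i m hv
  | algebraMap c =>
    intro v hv
    rw [Module.algebraMap_end_apply]
    exact Submodule.smul_mem _ _ hv
  | add x y _ _ hx hy => intro v hv; exact add_mem (hx v hv) (hy v hv)
  | mul x y _ _ hx hy => intro v hv; exact hx _ (hy v hv)

/-- the ideal of products of `k` non-adjacent generators kills the partial matchings with fewer than `k` arcs -/
theorem J_kill (τ : ℂ) {k m : ℕ} (hn : 1 ≤ n) (hm : m < 2 * k)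
    {x : Module.End ℂ (PM n →₀ ℂ)}
    (hx : x ∈ J (fun i => (opr τ i : Module.End ℂ (PM n →₀ ℂ))) k (n - 1)) :
    ∀ v ∈ lev n m, x v = 0 := by
  induction hx using Submodule.span_induction with
  | mem x hx =>
    obtain ⟨a, ha, y, hy, b, hb, rfl⟩ := hx
    intro v hv
    have h1 := lev_S τ (n - 1) m hb v hv
    rw [Module.End.mul_apply, Module.End.mul_apply]
    have h2 : ∀ u ∈ lev n m, y u = 0 := by
      intro u hu
      induction hu using Submodule.span_induction with
      | mem u hu =>
        obtain ⟨f, hf, rfl⟩ := hu
        exact kill τ hy hn (lt_of_le_of_lt hf hm)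
      | zero => rw [map_zero]
      | add x y _ _ hx hy => rw [map_add, hx, hy, add_zero]
      | smul c x _ hx => rw [map_smul, hx, smul_zero]
    rw [h2 _ h1, map_zero]
  | zero => intro v _; rfl
  | add x y _ _ hx hy => intro v hv; rw [LinearMap.add_apply, hx v hv, hy v hv, add_zero]
  | smul c x _ hx => intro v hv; rw [LinearMap.smul_apply, hx v hv, smul_zero]

end Pool.Agent.TLU
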