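import Pool.Agent.TLU.Join
import Pool.Agent.TLU.Alg

set_option autoImplicit false

/-!
# The diagrammatic modules

`PM n`: the partial matchings of `n` points on a line; the generator `e i` joins the points `i`, `i+1`. `opr τ i` is the
corresponding operator. The planar partial matchings with `j` arcs span the module `V^n_(n-2j)`.
-/

namespace Pool.Agent.TLU

variable {n : ℕ}

theorem opr_single (τ : ℂ) (i : ℕ) (f : PM n) (c : ℂ) :
    opr τ i (Finsupp.single f c) = Finsupp.single (jn i f) (c * co τ i f) := by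
  unfold opr
  rw [Finsupp.linearCombination_single, Finsupp.smul_single, smul_eq_mul]

theorem jn_val {i : ℕ} (h : i + 1 < n) (f : PM n) :
    (jn i f).1 = join ⟨i, by omega⟩ ⟨i + 1, h⟩ f.1 := by
  unfold jn; rw [dif_pos h]

theorem co_val (τ : ℂ) {i : ℕ} (h : i + 1 < n) (f : PM n) :
    co τ i f = cf τ ⟨i, by omega⟩ ⟨i + 1, h⟩ f.1 := by
  unfold co; rw [dif_pos h]

/-- the operators satisfy the Temperley-Lieb relations -/
theorem opr_tls (τ : ℂ) : TLS τ (n - 1) (fun i => (opr τ i : Module.End ℂ (PM n →₀ ℂ))) where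
  comm i j h1 h2 := by
    apply Finsupp.lhom_ext
    intro f c
    have hi : i + 1 < n := by omega
    have hj : j + 1 < n := by omega
    rw [Module.End.mul_apply, Module.End.mul_apply, opr_single, opr_single, opr_single,
      opr_single]
    have e1 : jn i (jn j f) = jn j (jn i f) := by
      apply Subtype.ext
      funext x
      rw [jn_val hi, jn_val hj, jn_val hj, jn_val hi]
      exact join_comm (by simp [Fin.ext_iff]) (by simp [Fin.ext_iff]; omega)
        (by simp [Fin.ext_iff]; omega) (by simp [Fin.ext_iff]; omega)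
        (by simp [Fin.ext_iff]; omega) (by simp [Fin.ext_iff]) f.2 x
    have e2 : co τ i (jn j f) * co τ j f = co τ j (jn i f) * co τ i f := by
      rw [co_val τ hi, co_val τ hj, co_val τ hj, co_val τ hi, jn_val hj, jn_val hi]
      exact cf_comm τ (by simp [Fin.ext_iff]) (by simp [Fin.ext_iff]; omega)
        (by simp [Fin.ext_iff]; omega) (by simp [Fin.ext_iff]; omega)
        (by simp [Fin.ext_iff]; omega) (by simp [Fin.ext_iff]) f.2
    rw [e1]
    congr 1
    linear_combination c * e2
  up i h1 := by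
    apply Finsupp.lhom_ext
    intro f c
    have hi : i + 1 < n := by omega
    have hj : i + 1 + 1 < n := by omega
    rw [Module.End.mul_apply, Module.End.mul_apply, opr_single, opr_single, opr_single]
    have n1 : (⟨i, by omega⟩ : Fin n) ≠ ⟨i + 1, hi⟩ := by simp [Fin.ext_iff]
    have n2 : (⟨i, by omega⟩ : Fin n) ≠ ⟨i + 1 + 1, hj⟩ := by simp [Fin.ext_iff]; omega
    have n3 : (⟨i + 1, hi⟩ : Fin n) ≠ ⟨i + 1 + 1, hj⟩ := by simp [Fin.ext_iff]
    have e1 : jn i (jn (i + 1) (jn i f)) = jn i f := by
      apply Subtype.ext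
      funext x
      rw [jn_val hi, jn_val hj, jn_val hi]
      exact join_three n1 n2 n3 f.2 x
    have e2 : co τ (i + 1) (jn i f) = 1 := by
      rw [co_val τ hj, jn_val hi]
      exact cf_up τ n1 n2 f.1
    have e3 : co τ i (jn (i + 1) (jn i f)) = 1 := by
      rw [co_val τ hi, jn_val hj]
      exact cf_down τ n2 n3 (jn i f).2
    rw [e1, e2, e3, mul_one, mul_one]
  down i h1 := by
    apply Finsupp.lhom_ext
    intro f c
    have hi : i + 1 < n := by omega
    have hj : i + 1 + 1 < n := by omega
    rw [Module.End.mul_apply, Module.End.mul_apply, opr_single, opr_single, opr_single]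
    have n1 : (⟨i, by omega⟩ : Fin n) ≠ ⟨i + 1, hi⟩ := by simp [Fin.ext_iff]
    have n2 : (⟨i, by omega⟩ : Fin n) ≠ ⟨i + 1 + 1, hj⟩ := by simp [Fin.ext_iff]; omega
    have n3 : (⟨i + 1, hi⟩ : Fin n) ≠ ⟨i + 1 + 1, hj⟩ := by simp [Fin.ext_iff]
    have e1 : jn (i + 1) (jn i (jn (i + 1) f)) = jn (i + 1) f := by
      apply Subtype.ext
      funext x
      rw [jn_val hj, jn_val hi, jn_val hj]
      exact join_three' n1 n2 n3 f.2 x
    have e2 : co τ i (jn (i + 1) f) = 1 := by
      rw [co_val τ hi, jn_val hj]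
      exact cf_down τ n2 n3 f.2
    have e3 : co τ (i + 1) (jn i (jn (i + 1) f)) = 1 := by
      rw [co_val τ hj, jn_val hi]
      exact cf_up τ n1 n2 _
    rw [e1, e2, e3, mul_one, mul_one]
  sq i h1 := by
    apply Finsupp.lhom_ext
    intro f c
    have hi : i + 1 < n := by omega
    rw [Module.End.mul_apply, LinearMap.smul_apply, opr_single, opr_single, Finsupp.smul_single]
    have n1 : (⟨i, by omega⟩ : Fin n) ≠ ⟨i + 1, hi⟩ := by simp [Fin.ext_iff]
    have e1 : jn i (jn i f) = jn i f := by
      apply Subtype.ext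
      funext x
      rw [jn_val hi, jn_val hi]
      exact join_idem f.2 x
    have e2 : co τ i (jn i f) = τ := by
      rw [co_val τ hi, jn_val hi]
      exact cf_join τ f.1
    rw [e1, e2, smul_eq_mul]
    congr 1
    ring

end Pool.Agent.TLU
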