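import Pool.Agent.TLU.Kill
import Pool.Agent.TLU.Full

set_option autoImplicit false

/-!
# The planar perfect matchings are generated by the matching `(0,1), (2,3), ...`
-/

namespace Pool.Agent.TLU

theorem planar_aux {α : Type} [LinearOrder α] {f : α → α} (hi : ∀ x, f (f x) = x)
    (hf : ∀ a b, a < b → b < f a → f b ≠ b ∧ a < f b ∧ f b < f a) {x y z : α}
    (hxy : x < y) (hyz : y < z) (hx : ∀ t, x < t → y = t ∨ y < t) (hy : ∀ t, y < t → z = t ∨ z < t)
    (hc : f y = z) (hp : f x ≠ x) (a b : α) (hab : a < b) (hba : b < join x y f a) :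
    join x y f b ≠ b ∧ a < join x y f b ∧ join x y f b < join x y f a := by
  have i1 := hi x
  have i2 := hi y
  have i3 := hi a
  have i4 := hi b
  have p1 := hf a b
  have p2 := hf a x
  have p3 := hf a (f x)
  have p4 := hf x b
  have p5 := hf (f x) b
  have u1 := hx a
  have u2 := hx b
  have u3 := hx (f a)
  have u4 := hx (f b)
  have w1 := hy a
  have w2 := hy b
  have w3 := hy (f a)
  have w4 := hy (f b)
  have u5 := hx (f x)
  have w5 := hy (f x)
  have t1 := lt_trichotomy a x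
  have t2 := lt_trichotomy b x
  have t3 := lt_trichotomy (f a) x
  have t4 := lt_trichotomy (f b) x
  have t5 := lt_trichotomy (f x) x
  have t6 := lt_trichotomy b (f x)
  have t7 := lt_trichotomy a (f x)
  clear hi hf hx hy
  unfold join at hba ⊢
  grind (splits := 100)

variable {n : ℕ}

/-- `f` has the arc `(i, i+1)` -/
def Arc (f : PM n) (i : ℕ) : Prop := ∃ h : i + 1 < n, f.1 ⟨i, by omega⟩ = ⟨i + 1, h⟩

theorem planar_move {f : PM n} (hf : Planar f) {j : ℕ} (hc : Arc f (j + 1))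
    (hp : ∀ x, f.1 x ≠ x) : Planar (jn j f) := by
  obtain ⟨hj, hc⟩ := hc
  have hj1 : j + 1 < n := by omega
  intro a b hab hba
  rw [jn_val hj1] at hba ⊢
  refine planar_aux f.2 hf (x := ⟨j, by omega⟩) (y := ⟨j + 1, hj1⟩) (z := ⟨j + 1 + 1, hj⟩)
    ?_ ?_ ?_ ?_ hc (hp _) a b hab hba
  · simp [Fin.lt_def]
  · simp [Fin.lt_def]
  · intro t ht
    simp only [Fin.lt_def, Fin.ext_iff] at ht ⊢
    omega
  · intro t ht
    simp only [Fin.lt_def, Fin.ext_iff] at ht ⊢
    omega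

theorem arc_jn {f : PM n} {i : ℕ} (h : Arc f i) : jn i f = f := by
  obtain ⟨hi, h⟩ := h
  apply Subtype.ext
  funext x
  rw [jn_val hi]
  have h1 := f.2 x
  have h2 := f.2 ⟨i, by omega⟩
  unfold join
  grind

theorem jn_arc {i : ℕ} (hi : i + 1 < n) (f : PM n) : Arc (jn i f) i :=
  ⟨hi, by rw [jn_val hi]; exact join_left _⟩

theorem perf_jn {f : PM n} (hp : ∀ x, f.1 x ≠ x) (j : ℕ) : ∀ x, (jn j f).1 x ≠ x := by
  by_cases hj : j + 1 < n
  · intro x
    rw [jn_val hj]
    have h0 : (⟨j, by omega⟩ : Fin n) ≠ ⟨j + 1, hj⟩ := by simp [Fin.ext_iff]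
    have h1 := f.2 x
    have h2 := f.2 ⟨j, by omega⟩
    have h3 := f.2 ⟨j + 1, hj⟩
    have h4 := hp ⟨j, by omega⟩
    have h5 := hp ⟨j + 1, hj⟩
    have h6 := hp x
    unfold join
    grind
  · unfold jn; rw [dif_neg hj]; exact hp

/-- moving an arc to the left is reversible -/
theorem move_back (τ : ℂ) {f : PM n} {j : ℕ} (hc : Arc f (j + 1)) :
    (Finsupp.single f 1 : PM n →₀ ℂ) = opr τ (j + 1) (Finsupp.single (jn j f) 1) := by
  have hj2 : j + 1 + 1 < n := hc.1
  have hj : j + 1 < n := by omega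
  have n1 : (⟨j, by omega⟩ : Fin n) ≠ ⟨j + 1, hj⟩ := by simp [Fin.ext_iff]
  have n2 : (⟨j, by omega⟩ : Fin n) ≠ ⟨j + 1 + 1, hj2⟩ := by simp [Fin.ext_iff]; omega
  have n3 : (⟨j + 1, hj⟩ : Fin n) ≠ ⟨j + 1 + 1, hj2⟩ := by simp [Fin.ext_iff]
  have h0 := arc_jn hc
  have e1 : jn (j + 1) (jn j f) = f := by
    conv_lhs => rw [← h0]
    conv_rhs => rw [← h0]
    apply Subtype.ext
    funext x
    rw [jn_val hj2, jn_val hj, jn_val hj2]
    exact join_three' n1 n2 n3 f.2 x
  have e2 : co τ (j + 1) (jn j f) = 1 := by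
    rw [co_val τ hj2, jn_val hj]
    exact cf_up τ n1 n2 f.1
  rw [opr_single, e1, e2, mul_one]

/-- a partial matching with an arc is a vector with a cup -/
theorem arc_cup (τ : ℂ) {f : PM n} {i : ℕ} (hc : Arc f i) :
    Cup τ (n - 1) (fun i => (opr τ i : Module.End ℂ (PM n →₀ ℂ))) i (Finsupp.single f 1) where
  loop := by
    have hi := hc.1
    have h0 := arc_jn hc
    have h1 : co τ i f = τ := by
      rw [← h0, co_val τ hi, jn_val hi]
      exact cf_join τ f.1
    show opr τ i (Finsupp.single f 1) = _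
    rw [opr_single, h0, h1, Finsupp.smul_single, smul_eq_mul, mul_comm]
  up hn := by
    have hi := hc.1
    have hj2 : i + 1 + 1 < n := by omega
    have n1 : (⟨i, by omega⟩ : Fin n) ≠ ⟨i + 1, hi⟩ := by simp [Fin.ext_iff]
    have n2 : (⟨i, by omega⟩ : Fin n) ≠ ⟨i + 1 + 1, hj2⟩ := by simp [Fin.ext_iff]; omega
    have n3 : (⟨i + 1, hi⟩ : Fin n) ≠ ⟨i + 1 + 1, hj2⟩ := by simp [Fin.ext_iff]
    have h0 := arc_jn hc
    show opr τ i (opr τ (i + 1) (Finsupp.single f 1)) = _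
    rw [opr_single, opr_single]
    have e1 : jn i (jn (i + 1) f) = f := by
      conv_lhs => rw [← h0]
      conv_rhs => rw [← h0]
      apply Subtype.ext
      funext x
      rw [jn_val hi, jn_val hj2, jn_val hi]
      exact join_three n1 n2 n3 f.2 x
    have e2 : co τ (i + 1) f = 1 := by
      rw [← h0, co_val τ hj2, jn_val hi]
      exact cf_up τ n1 n2 f.1
    have e3 : co τ i (jn (i + 1) f) = 1 := by
      rw [co_val τ hi, jn_val hj2]
      exact cf_down τ n2 n3 f.2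
    rw [e1, e2, e3, mul_one, mul_one]
  down j hj := by
    subst hj
    show opr τ (j + 1) (opr τ j (Finsupp.single f 1)) = _
    have hj2 : j + 1 + 1 < n := hc.1
    have hj : j + 1 < n := by omega
    have n2 : (⟨j, by omega⟩ : Fin n) ≠ ⟨j + 1 + 1, hj2⟩ := by simp [Fin.ext_iff]; omega
    have n3 : (⟨j + 1, hj⟩ : Fin n) ≠ ⟨j + 1 + 1, hj2⟩ := by simp [Fin.ext_iff]
    have h0 := arc_jn hc
    have e2 : co τ j f = 1 := by
      rw [← h0, co_val τ hj, jn_val hj2]
      exact cf_down τ n2 n3 f.2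
    rw [opr_single, e2, mul_one]
    exact (move_back τ hc).symm

/-- under an arc there is an arc of two neighbours -/
theorem exists_arc {f : PM n} (hf : Planar f) :
    ∀ (d : ℕ) (a : Fin n), a < f.1 a → (f.1 a).1 - a.1 ≤ d → ∃ i, a.1 ≤ i ∧ Arc f i := by
  intro d
  induction d with
  | zero =>
    intro a h1 h2
    rw [Fin.lt_def] at h1
    omega
  | succ d ih =>
    intro a h1 h2
    have h3 : a.1 < (f.1 a).1 := h1
    have h4 : a.1 + 1 < n := by have := (f.1 a).2; omega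
    by_cases h5 : f.1 a = ⟨a.1 + 1, h4⟩
    · exact ⟨a.1, le_rfl, h4, h5⟩
    · have h6 : (⟨a.1 + 1, h4⟩ : Fin n) < f.1 a := by
        rw [Fin.lt_def]
        have : (f.1 a).1 ≠ a.1 + 1 := fun h => h5 (Fin.ext h)
        show a.1 + 1 < (f.1 a).1
        omega
      have h7 : a < (⟨a.1 + 1, h4⟩ : Fin n) := by rw [Fin.lt_def]; exact Nat.lt_succ_self _
      obtain ⟨h8, h9, h10⟩ := hf a _ h7 h6
      have h11 : (⟨a.1 + 1, h4⟩ : Fin n) < f.1 ⟨a.1 + 1, h4⟩ := by
        rw [Fin.lt_def] at h9 ⊢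
        have : (f.1 ⟨a.1 + 1, h4⟩).1 ≠ a.1 + 1 := fun h => h8 (Fin.ext h)
        show a.1 + 1 < _
        omega
      obtain ⟨i, hi, hi2⟩ := ih ⟨a.1 + 1, h4⟩ h11 (by
        rw [Fin.lt_def] at h10
        show (f.1 ⟨a.1 + 1, h4⟩).1 - (a.1 + 1) ≤ d
        omega)
      exact ⟨i, by have : a.1 + 1 ≤ i := hi; omega, hi2⟩

/-- the first `r` pairs are matched -/
def Good (r : ℕ) (f : PM n) : Prop := ∀ t, t < r → Arc f (2 * t)

theorem good_lt {r : ℕ} {f : PM n} (hg : Good r f) {x : Fin n} (hx : x.1 < 2 * r) :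
    (f.1 x).1 < 2 * r := by
  rcases Nat.even_or_odd' x.1 with ⟨t, ht | ht⟩
  · obtain ⟨h1, h2⟩ := hg t (by omega)
    have h3 : x = ⟨2 * t, by omega⟩ := Fin.ext ht
    rw [h3, h2]
    show 2 * t + 1 < 2 * r
    omega
  · obtain ⟨h1, h2⟩ := hg t (by omega)
    have h3 : x = ⟨2 * t + 1, h1⟩ := Fin.ext ht
    have h4 := f.2 ⟨2 * t, by omega⟩
    rw [h2] at h4
    rw [h3, h4]
    show 2 * t < 2 * r
    omega

theorem good_ge {r : ℕ} {f : PM n} (hg : Good r f) {x : Fin n} (hx : 2 * r ≤ x.1) :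
    2 * r ≤ (f.1 x).1 := by
  by_contra h
  have h1 := good_lt hg (x := f.1 x) (by omega)
  rw [f.2 x] at h1
  omega

theorem good_jn {r : ℕ} {f : PM n} (hg : Good r f) {j : ℕ} (hj : 2 * r ≤ j) : Good r (jn j f) := by
  by_cases hj1 : j + 1 < n
  · intro t ht
    obtain ⟨h1, h2⟩ := hg t ht
    refine ⟨h1, ?_⟩
    rw [jn_val hj1]
    unfold join
    rw [h2]
    have a1 : (⟨2 * t, by omega⟩ : Fin n) ≠ ⟨j, by omega⟩ := by simp [Fin.ext_iff]; omega
    have a2 : (⟨2 * t, by omega⟩ : Fin n) ≠ ⟨j + 1, hj1⟩ := by simp [Fin.ext_iff]; omega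
    have a3 : (⟨2 * t + 1, h1⟩ : Fin n) ≠ ⟨j, by omega⟩ := by simp [Fin.ext_iff]; omega
    have a4 : (⟨2 * t + 1, h1⟩ : Fin n) ≠ ⟨j + 1, hj1⟩ := by simp [Fin.ext_iff]; omega
    rw [if_neg a1, if_neg a2, if_neg a3, if_neg a4]
  · unfold jn; rw [dif_neg hj1]; exact hg

/-- `f` is obtained from a matching all of whose even points are matched with their right neighbours -/
def Reach (τ : ℂ) (f : PM n) : Prop :=
  ∃ g : PM n, (∀ t, 2 * t + 1 < n → Arc g (2 * t)) ∧
    ∃ x ∈ S (fun i => (opr τ i : Module.End ℂ (PM n →₀ ℂ))) (n - 1),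
      (Finsupp.single f 1 : PM n →₀ ℂ) = x (Finsupp.single g 1)

theorem reach_move {τ : ℂ} {f : PM n} {j : ℕ} (hc : Arc f (j + 1)) (h : Reach τ (jn j f)) :
    Reach τ f := by
  obtain ⟨g, hg, x, hx, hxe⟩ := h
  refine ⟨g, hg, opr τ (j + 1) * x, mul_mem ?_ hx, ?_⟩
  · exact e_mem (fun i => (opr τ i : Module.End ℂ (PM n →₀ ℂ))) (by have := hc.1; omega)
  · rw [move_back τ hc, hxe]
    rfl

theorem reach_good (τ : ℂ) : ∀ (k r : ℕ), 2 * (r + k) + 1 ≥ n → ∀ f : PM n, Planar f →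
    (∀ x, f.1 x ≠ x) → Good r f → Reach τ f := by
  intro k
  induction k with
  | zero =>
    intro r hr f _ _ hg
    exact ⟨f, fun t ht => hg t (by omega), 1, one_mem _, rfl⟩
  | succ k ih =>
    intro r hr f hf hp hg
    by_cases hrn : 2 * r + 1 < n
    swap
    · exact ⟨f, fun t ht => hg t (by omega), 1, one_mem _, rfl⟩
    -- an arc of neighbours beyond `2 r`
    have h1 : (⟨2 * r, by omega⟩ : Fin n) < f.1 ⟨2 * r, by omega⟩ := by
      have h2 := good_ge hg (x := ⟨2 * r, by omega⟩) le_rfl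
      have h3 : (f.1 ⟨2 * r, by omega⟩).1 ≠ 2 * r := fun h => hp ⟨2 * r, by omega⟩ (Fin.ext h)
      rw [Fin.lt_def]
      show 2 * r < _
      omega
    obtain ⟨i, hi, hia⟩ := exists_arc hf _ _ h1 le_rfl
    have hi' : 2 * r ≤ i := hi
    have key : ∀ (d : ℕ) (f : PM n), Planar f → (∀ x, f.1 x ≠ x) → Good r f →
        Arc f (2 * r + d) → Reach τ f := by
      intro d
      induction d with
      | zero =>
        intro f hf hp hg ha
        refine ih (r + 1) (by omega) f hf hp ?_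
        intro t ht
        rcases Nat.lt_succ_iff_lt_or_eq.1 ht with h | h
        · exact hg t h
        · rw [h]; exact ha
      | succ d ihd =>
        intro f hf hp hg ha
        have ha' : Arc f (2 * r + d + 1) := ha
        have hn : 2 * r + d + 1 < n := by have := ha'.1; omega
        exact reach_move ha' (ihd _ (planar_move hf ha' hp) (perf_jn hp _) (good_jn hg (by omega))
          (jn_arc hn f))
    have h4 : 2 * r + (i - 2 * r) = i := by omega
    exact key (i - 2 * r) f hf hp hg (by rw [h4]; exact hia)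

theorem reach (τ : ℂ) {f : PM n} (hf : Planar f) (hp : ∀ x, f.1 x ≠ x) : Reach τ f :=
  reach_good τ n 0 (by omega) f hf hp (fun t ht => by omega)

end Pool.Agent.TLU
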