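import Pool.Agent.TLU.Reach

set_option autoImplicit false

/-!
# The representation `rho` and the action `D` on partial matchings
-/

namespace Pool.Agent.TLU

variable (n : ℕ) (τ : ℂ)

theorem gen_comm {i j : Fin (n - 1)} (h : (i : ℕ) + 1 < j) :
    gen n τ i * gen n τ j = gen n τ j * gen n τ i := by
  unfold gen
  rw [← map_mul, ← map_mul]
  exact RingQuot.mkAlgHom_rel ℂ ⟨i, j, Or.inl ⟨h, rfl, rfl⟩⟩

theorem gen_adj {i j : Fin (n - 1)} (h : (i : ℕ) + 1 = j ∨ (j : ℕ) + 1 = i) :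
    gen n τ i * gen n τ j * gen n τ i = gen n τ i := by
  unfold gen
  rw [← map_mul, ← map_mul]
  exact RingQuot.mkAlgHom_rel ℂ ⟨i, j, Or.inr (Or.inl ⟨h, rfl, rfl⟩)⟩

theorem gen_sq (i : Fin (n - 1)) : gen n τ i * gen n τ i = τ • gen n τ i := by
  unfold gen
  rw [← map_mul, ← map_smul]
  exact RingQuot.mkAlgHom_rel ℂ ⟨i, i, Or.inr (Or.inr ⟨rfl, rfl, rfl⟩)⟩

/-- the generators of the Temperley-Lieb algebra indexed by the natural numbers -/
noncomputable def genN (i : ℕ) : TL n τ := if h : i < n - 1 then gen n τ ⟨i, h⟩ else 0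

theorem genN_val {i : ℕ} (h : i < n - 1) : genN n τ i = gen n τ ⟨i, h⟩ := by
  unfold genN; rw [dif_pos h]

theorem genN_tls : TLS τ (n - 1) (genN n τ) where
  comm i j h1 h2 := by
    rw [genN_val n τ (i := i) (by omega), genN_val n τ h2]
    exact gen_comm n τ h1
  up i h1 := by
    rw [genN_val n τ (i := i) (by omega), genN_val n τ h1]
    exact gen_adj n τ (Or.inl rfl)
  down i h1 := by
    rw [genN_val n τ (i := i) (by omega), genN_val n τ h1]
    exact gen_adj n τ (Or.inr rfl)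
  sq i h1 := by
    rw [genN_val n τ h1]
    exact gen_sq n τ _

/-- the product of `A + A⁻¹ e` and `A⁻¹ + A e` -/
theorem unit_aux {T : Type} [Ring T] [Algebra ℂ T] {A : ℂ} (hA : A ≠ 0) {e : T}
    (he : e * e = loopv A • e) :
    (algebraMap ℂ T A + A⁻¹ • e) * (algebraMap ℂ T A⁻¹ + A • e) = 1 ∧
      (algebraMap ℂ T A⁻¹ + A • e) * (algebraMap ℂ T A + A⁻¹ • e) = 1 := by
  have h1 : (algebraMap ℂ T A + A⁻¹ • e) * (algebraMap ℂ T A⁻¹ + A • e) =
      (A * A⁻¹) • (1 : T) + (A * A + A⁻¹ * A⁻¹) • e + (A⁻¹ * A) • (e * e) := by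
    simp only [Algebra.algebraMap_eq_smul_one, add_mul, mul_add, smul_mul_assoc, mul_smul_comm,
      one_mul, mul_one]
    module
  have h2 : (algebraMap ℂ T A⁻¹ + A • e) * (algebraMap ℂ T A + A⁻¹ • e) =
      (A * A⁻¹) • (1 : T) + (A * A + A⁻¹ * A⁻¹) • e + (A⁻¹ * A) • (e * e) := by
    simp only [Algebra.algebraMap_eq_smul_one, add_mul, mul_add, smul_mul_assoc, mul_smul_comm,
      one_mul, mul_one]
    module
  have h3 : (A * A⁻¹) • (1 : T) + (A * A + A⁻¹ * A⁻¹) • e + (A⁻¹ * A) • (e * e) = 1 := by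
    rw [he, loopv]
    match_scalars <;> field_simp <;> ring
  exact ⟨h1.trans h3, h2.trans h3⟩

/-- the image of a generator of the braid group -/
noncomputable def sig (A : ℂ) (hA : A ≠ 0) (i : Fin (n - 1)) : (TL n (loopv A))ˣ where
  val := algebraMap ℂ _ A + A⁻¹ • gen n (loopv A) i
  inv := algebraMap ℂ _ A⁻¹ + A • gen n (loopv A) i
  val_inv := (unit_aux hA (gen_sq n (loopv A) i)).1
  inv_val := (unit_aux hA (gen_sq n (loopv A) i)).2

/-- the images of the generators indexed by the natural numbers -/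
noncomputable def sigN (A : ℂ) (hA : A ≠ 0) (i : ℕ) : (TL n (loopv A))ˣ :=
  if h : i < n - 1 then sig n A hA ⟨i, h⟩ else 1

theorem sigN_val (A : ℂ) (hA : A ≠ 0) {i : ℕ} (h : i < n - 1) :
    sigN n A hA i = sig n A hA ⟨i, h⟩ := by
  unfold sigN; rw [dif_pos h]

theorem sigN_rep (A : ℂ) (hA : A ≠ 0) :
    Rep A (loopv A) (n - 1) (genN n (loopv A)) (sigN n A hA) where
  tl := genN_tls n _
  ne := hA
  par := rfl
  val i hi := by rw [sigN_val n A hA hi, genN_val n _ hi]; rfl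

/-- the Temperley-Lieb representation `σ_i ↦ A + A⁻¹ e_i` -/
noncomputable def rho (A : ℂ) (hA : A ≠ 0) : Braid n →* (TL n (loopv A))ˣ :=
  PresentedGroup.toGroup (f := sig n A hA) (by
    rintro _ ⟨i, j, ⟨h, rfl⟩ | ⟨h, rfl⟩⟩
    · have h1 := (sigN_rep n A hA).commute h j.2
      rw [sigN_val n A hA i.2, sigN_val n A hA j.2] at h1
      simp only [map_mul, map_inv, FreeGroup.lift_apply_of]
      exact mul_inv_eq_one.2 h1
    · have hj : (i : ℕ) + 1 < n - 1 := by rw [h]; exact j.2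
      have h1 := (sigN_rep n A hA).braid hj
      have h2 : (⟨(i : ℕ) + 1, hj⟩ : Fin (n - 1)) = j := Fin.ext h
      rw [sigN_val n A hA i.2, sigN_val n A hA hj, h2] at h1
      simp only [map_mul, map_inv, FreeGroup.lift_apply_of]
      exact mul_inv_eq_one.2 h1)

theorem rho_of (A : ℂ) (hA : A ≠ 0) (i : Fin (n - 1)) :
    rho n A hA (PresentedGroup.of i) = sig n A hA i := by
  unfold rho; exact PresentedGroup.toGroup.of _

/-- the operators `opr τ i` respect the relations -/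
theorem D_aux (x y : FreeAlgebra ℂ (Fin (n - 1))) (hxy : trel n τ x y) :
    FreeAlgebra.lift ℂ (fun i : Fin (n - 1) => (opr τ i : Module.End ℂ (PM n →₀ ℂ))) x =
      FreeAlgebra.lift ℂ (fun i : Fin (n - 1) => (opr τ i : Module.End ℂ (PM n →₀ ℂ))) y := by
  have h := opr_tls (n := n) τ
  obtain ⟨i, j, ⟨h1, rfl, rfl⟩ | ⟨h1, rfl, rfl⟩ | ⟨rfl, rfl, rfl⟩⟩ := hxy
  · simp only [map_mul, FreeAlgebra.lift_ι_apply]
    exact h.comm i j h1 j.2
  · simp only [map_mul, FreeAlgebra.lift_ι_apply]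
    rcases h1 with h1 | h1
    · rw [← h1]
      exact h.up i (by rw [h1]; exact j.2)
    · rw [← h1]
      exact h.down j (by rw [h1]; exact i.2)
  · simp only [map_mul, map_smul, FreeAlgebra.lift_ι_apply]
    exact h.sq i i.2

/-- the action of the Temperley-Lieb algebra on partial matchings: `e i` acts by `opr τ i` -/
noncomputable def D : TL n τ →ₐ[ℂ] Module.End ℂ (PM n →₀ ℂ) :=
  RingQuot.liftAlgHom ℂ ⟨FreeAlgebra.lift ℂ (fun i : Fin (n - 1) => opr τ i),
    fun x y h => D_aux n τ x y h⟩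

theorem D_gen (i : Fin (n - 1)) : D n τ (gen n τ i) = opr τ i := by
  unfold D gen
  rw [RingQuot.liftAlgHom_mkAlgHom_apply, FreeAlgebra.lift_ι_apply]

/-- an action of the Temperley-Lieb algebra on the space with basis the partial matchings -/
abbrev Action : Type := TL n τ →ₐ[ℂ] Module.End ℂ (PM n →₀ ℂ)

/-- the diagrammatic action: `e i` acts by `opr τ i` (this determines the action) -/
def IsDiag (D : Action n τ) : Prop := ∀ i : Fin (n - 1), D (gen n τ i) = opr τ i

/-- the braid `β` fixes all vectors of `U` -/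
def Fixes (A : ℂ) (hA : A ≠ 0) (D : Action n (loopv A)) (β : Braid n)
    (U : Submodule ℂ (PM n →₀ ℂ)) : Prop :=
  ∀ v ∈ U, D (rho n A hA β : TL n (loopv A)) v = v

end Pool.Agent.TLU
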