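import Pool.Agent.TLU.Base

set_option autoImplicit false

/-!
# The action on rows (mirror image of the action on columns)
-/

namespace Pool.Agent.TLU

variable {T : Type} [Ring T] [Algebra ℂ T]

theorem row_zero {τ A : ℂ} {N : ℕ} {e : ℕ → T} (h : TLS τ N e) (hN : 4 ≤ N) (hA : A ≠ 0)
    (hτ : τ = -A ^ 2 - A⁻¹ ^ 2) (x y z t : ℂ) :
    A ^ 2 • (row A e (x, y, z, t) * e 0) - (-(1 + A ^ 4) * x + A ^ 4 * y) • e 0 ∈ J e 2 4 := by
  have s := h.sq 0 (by omega)
  have r : e 0 * e 1 * e 0 = e 0 := h.up 0 (by omega)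
  have j1 : e 0 * e 1 * e 2 * e 0 ∈ J e 2 4 := by
    have : e 0 * e 1 * e 2 * e 0 = e 0 * e 1 * (e 0 * e 2) := by
      rw [h.comm 0 2 (by omega) (by omega)]; noncomm_ring
    rw [this]
    exact J_left e (mul_mem (e_mem e (by omega)) (e_mem e (by omega))) (jj (by omega) (by omega))
  have j2 : e 0 * e 1 * e 2 * e 3 * e 0 ∈ J e 2 4 := by
    have : e 0 * e 1 * e 2 * e 3 * e 0 = e 0 * e 1 * e 2 * (e 0 * e 3) := by
      rw [h.comm 0 3 (by omega) (by omega)]; noncomm_ring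
    rw [this]
    exact J_left e (mul_mem (mul_mem (e_mem e (by omega)) (e_mem e (by omega)))
      (e_mem e (by omega))) (jj (by omega) (by omega))
  have key : A ^ 2 • (row A e (x, y, z, t) * e 0) - (-(1 + A ^ 4) * x + A ^ 4 * y) • e 0 =
      (A ^ 6 * z) • (e 0 * e 1 * e 2 * e 0) + (A ^ 8 * t) • (e 0 * e 1 * e 2 * e 3 * e 0) := by
    unfold row
    simp only [add_mul, smul_mul_assoc, s, r, hτ]
    match_scalars <;> field_simp <;> ring
  rw [key]
  exact add_mem (Submodule.smul_mem _ _ j1) (Submodule.smul_mem _ _ j2)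

theorem row_one {τ A : ℂ} {N : ℕ} {e : ℕ → T} (h : TLS τ N e) (hN : 4 ≤ N) (hA : A ≠ 0)
    (hτ : τ = -A ^ 2 - A⁻¹ ^ 2) (x y z t : ℂ) :
    A ^ 2 • (row A e (x, y, z, t) * e 1) - (x - (1 + A ^ 4) * y + A ^ 4 * z) •
      (A ^ 2 • (e 0 * e 1)) ∈ J e 2 4 := by
  have s : e 0 * e 1 * e 1 = τ • (e 0 * e 1) := by
    rw [mul_assoc, h.sq 1 (by omega), mul_smul_comm]
  have r : e 0 * e 1 * e 2 * e 1 = e 0 * e 1 := by
    have : e 0 * e 1 * e 2 * e 1 = e 0 * (e 1 * e 2 * e 1) := by noncomm_ring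
    rw [this, h.up 1 (by omega)]
  have j1 : e 0 * e 1 * e 2 * e 3 * e 1 ∈ J e 2 4 := by
    have : e 0 * e 1 * e 2 * e 3 * e 1 = e 0 * e 1 * e 2 * (e 1 * e 3) := by
      rw [h.comm 1 3 (by omega) (by omega)]; noncomm_ring
    rw [this]
    exact J_left e (mul_mem (mul_mem (e_mem e (by omega)) (e_mem e (by omega)))
      (e_mem e (by omega))) (jj (by omega) (by omega))
  have key : A ^ 2 • (row A e (x, y, z, t) * e 1) - (x - (1 + A ^ 4) * y + A ^ 4 * z) •
      (A ^ 2 • (e 0 * e 1)) = (A ^ 8 * t) • (e 0 * e 1 * e 2 * e 3 * e 1) := by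
    unfold row
    simp only [add_mul, smul_mul_assoc, s, r, hτ]
    match_scalars <;> field_simp <;> ring
  rw [key]
  exact Submodule.smul_mem _ _ j1

theorem row_two {τ A : ℂ} {N : ℕ} {e : ℕ → T} (h : TLS τ N e) (hN : 4 ≤ N) (hA : A ≠ 0)
    (hτ : τ = -A ^ 2 - A⁻¹ ^ 2) (x y z t : ℂ) :
    A ^ 2 • (row A e (x, y, z, t) * e 2) - (y - (1 + A ^ 4) * z + A ^ 4 * t) •
      (A ^ 4 • (e 0 * e 1 * e 2)) ∈ J e 2 4 := by
  have s : e 0 * e 1 * e 2 * e 2 = τ • (e 0 * e 1 * e 2) := by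
    rw [mul_assoc (e 0 * e 1), h.sq 2 (by omega), mul_smul_comm]
  have r : e 0 * e 1 * e 2 * e 3 * e 2 = e 0 * e 1 * e 2 := by
    have : e 0 * e 1 * e 2 * e 3 * e 2 = e 0 * e 1 * (e 2 * e 3 * e 2) := by noncomm_ring
    rw [this, h.up 2 (by omega)]
  have j1 : e 0 * e 2 ∈ J e 2 4 := jj (by omega) (by omega)
  have key : A ^ 2 • (row A e (x, y, z, t) * e 2) - (y - (1 + A ^ 4) * z + A ^ 4 * t) •
      (A ^ 4 • (e 0 * e 1 * e 2)) = (A ^ 2 * x) • (e 0 * e 2) := by
    unfold row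
    simp only [add_mul, smul_mul_assoc, s, r, hτ]
    match_scalars <;> field_simp <;> ring
  rw [key]
  exact Submodule.smul_mem _ _ j1

theorem row_three {τ A : ℂ} {N : ℕ} {e : ℕ → T} (h : TLS τ N e) (hN : 4 ≤ N) (hA : A ≠ 0)
    (hτ : τ = -A ^ 2 - A⁻¹ ^ 2) (x y z t : ℂ) :
    A ^ 2 • (row A e (x, y, z, t) * e 3) - (z - (1 + A ^ 4) * t) •
      (A ^ 6 • (e 0 * e 1 * e 2 * e 3)) ∈ J e 2 4 := by
  have s : e 0 * e 1 * e 2 * e 3 * e 3 = τ • (e 0 * e 1 * e 2 * e 3) := by
    rw [mul_assoc (e 0 * e 1 * e 2), h.sq 3 (by omega), mul_smul_comm]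
  have j1 : e 0 * e 3 ∈ J e 2 4 := jj (by omega) (by omega)
  have j2 : e 0 * e 1 * e 3 ∈ J e 2 4 := by
    rw [mul_assoc]
    exact J_left e (e_mem e (by omega)) (jj (by omega) (by omega))
  have key : A ^ 2 • (row A e (x, y, z, t) * e 3) - (z - (1 + A ^ 4) * t) •
      (A ^ 6 • (e 0 * e 1 * e 2 * e 3)) = (A ^ 2 * x) • (e 0 * e 3) +
        (A ^ 4 * y) • (e 0 * e 1 * e 3) := by
    unfold row
    simp only [add_mul, smul_mul_assoc, s, hτ]
    match_scalars <;> field_simp <;> ring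
  rw [key]
  exact add_mem (Submodule.smul_mem _ _ j1) (Submodule.smul_mem _ _ j2)

theorem row_step {τ A : ℂ} {N : ℕ} {e : ℕ → T} (h : TLS τ N e) (hN : 4 ≤ N) (hA : A ≠ 0)
    (hτ : τ = -A ^ 2 - A⁻¹ ^ 2) (p : ℕ × Bool) (hp : p.1 < 4) (c : V4 ℂ) :
    row A e c * lt A e p - row A e (av (A ^ 4) p c) ∈ J e 2 4 := by
  obtain ⟨i, b⟩ := p
  obtain ⟨x, y, z, t⟩ := c
  have hi : i = 0 ∨ i = 1 ∨ i = 2 ∨ i = 3 := by simp at hp; omega
  have h0 := row_zero h hN hA hτ x y z t
  have h1 := row_one h hN hA hτ x y z t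
  have h2 := row_two h hN hA hτ x y z t
  have h3 := row_three h hN hA hτ x y z t
  have hc : ∀ s : T, s * algebraMap ℂ T (A ^ 4) = A ^ 4 • s := fun s => by
    rw [← Algebra.commutes, Algebra.smul_def]
  cases b <;> rcases hi with rfl | rfl | rfl | rfl
  · have : row A e (x, y, z, t) * lt A e (0, false) -
        row A e (av (A ^ 4) (0, false) (x, y, z, t)) =
        A ^ 2 • (row A e (x, y, z, t) * e 0) - (-(1 + A ^ 4) * x + A ^ 4 * y) • e 0 := by
      simp only [lt, av, Bool.false_eq_true, if_false, mul_add, mul_one, mul_smul_comm]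
      simp only [row]
      module
    rw [this]; exact h0
  · have : row A e (x, y, z, t) * lt A e (1, false) -
        row A e (av (A ^ 4) (1, false) (x, y, z, t)) =
        A ^ 2 • (row A e (x, y, z, t) * e 1) - (x - (1 + A ^ 4) * y + A ^ 4 * z) •
      (A ^ 2 • (e 0 * e 1)) := by
      simp only [lt, av, Bool.false_eq_true, if_false, mul_add, mul_one, mul_smul_comm]
      simp only [row]
      module
    rw [this]; exact h1
  · have : row A e (x, y, z, t) * lt A e (2, false) -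
        row A e (av (A ^ 4) (2, false) (x, y, z, t)) =
        A ^ 2 • (row A e (x, y, z, t) * e 2) - (y - (1 + A ^ 4) * z + A ^ 4 * t) •
      (A ^ 4 • (e 0 * e 1 * e 2)) := by
      simp only [lt, av, Bool.false_eq_true, if_false, mul_add, mul_one, mul_smul_comm]
      simp only [row]
      module
    rw [this]; exact h2
  · have : row A e (x, y, z, t) * lt A e (3, false) -
        row A e (av (A ^ 4) (3, false) (x, y, z, t)) =
        A ^ 2 • (row A e (x, y, z, t) * e 3) - (z - (1 + A ^ 4) * t) •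
      (A ^ 6 • (e 0 * e 1 * e 2 * e 3)) := by
      simp only [lt, av, Bool.false_eq_true, if_false, mul_add, mul_one, mul_smul_comm]
      simp only [row]
      module
    rw [this]; exact h3
  · have : row A e (x, y, z, t) * lt A e (0, true) -
        row A e (av (A ^ 4) (0, true) (x, y, z, t)) =
        A ^ 2 • (row A e (x, y, z, t) * e 0) - (-(1 + A ^ 4) * x + A ^ 4 * y) • e 0 := by
      simp only [lt, av, if_true, mul_add, mul_smul_comm, hc]
      simp only [row]
      module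
    rw [this]; exact h0
  · have : row A e (x, y, z, t) * lt A e (1, true) -
        row A e (av (A ^ 4) (1, true) (x, y, z, t)) =
        A ^ 2 • (row A e (x, y, z, t) * e 1) - (x - (1 + A ^ 4) * y + A ^ 4 * z) •
      (A ^ 2 • (e 0 * e 1)) := by
      simp only [lt, av, if_true, mul_add, mul_smul_comm, hc]
      simp only [row]
      module
    rw [this]; exact h1
  · have : row A e (x, y, z, t) * lt A e (2, true) -
        row A e (av (A ^ 4) (2, true) (x, y, z, t)) =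
        A ^ 2 • (row A e (x, y, z, t) * e 2) - (y - (1 + A ^ 4) * z + A ^ 4 * t) •
      (A ^ 4 • (e 0 * e 1 * e 2)) := by
      simp only [lt, av, if_true, mul_add, mul_smul_comm, hc]
      simp only [row]
      module
    rw [this]; exact h2
  · have : row A e (x, y, z, t) * lt A e (3, true) -
        row A e (av (A ^ 4) (3, true) (x, y, z, t)) =
        A ^ 2 • (row A e (x, y, z, t) * e 3) - (z - (1 + A ^ 4) * t) •
      (A ^ 6 • (e 0 * e 1 * e 2 * e 3)) := by
      simp only [lt, av, if_true, mul_add, mul_smul_comm, hc]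
      simp only [row]
      module
    rw [this]; exact h3

end Pool.Agent.TLU
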